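import Pool.Agent.Work.MP_4e66c5_lc.Sorts

/-!
# Agreement of models, and semantically monotone formulas
-/

namespace Pool.Agent.Work.MP_4e66c5_lc

open Fm

/-- Modal depth. -/
def Fm.depth : Fm → ℕ
  | .pos _ => 0
  | .neg _ => 0
  | .bot => 0
  | .top => 0
  | .and a b => max a.depth b.depth
  | .or a b => max a.depth b.depth
  | .dia a => a.depth + 1
  | .box a => a.depth + 1

theorem evP_agr {s t : Set ℕ} {c : Prop} (a : Fm) (h : ∀ n ∈ a.vars, n ∈ s ↔ n ∈ t) :
    evP s c a ↔ evP t c a := by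
  induction a with
  | pos n => exact h n rfl
  | neg n => exact not_congr (h n rfl)
  | bot => exact Iff.rfl
  | top => exact Iff.rfl
  | and a b iha ihb =>
      exact and_congr (iha fun n hn => h n (Or.inl hn)) (ihb fun n hn => h n (Or.inr hn))
  | or a b iha ihb =>
      exact or_congr (iha fun n hn => h n (Or.inl hn)) (ihb fun n hn => h n (Or.inr hn))
  | dia a ih => exact Iff.rfl
  | box a ih => exact Iff.rfl

/-- Agreement of two models over the variables in `V` up to depth `d`. -/
structure Agr (V : Set ℕ) (d : ℕ) (M M' : Mdl) : Prop where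
  bits : ∀ w, ∀ n ∈ V, n ∈ M.bits w ↔ n ∈ M'.bits w
  star : ∀ n ∈ V, n ∈ M.star ↔ n ∈ M'.star
  eps : M.eps ↔ M'.eps
  fam : ∀ w : List Bool, w.length < d → ∀ b : Fm, b.vars ⊆ V →
    ({s | evP (M.val s) False b} ∈ M.fam.N w ↔ {s | evP (M'.val s) False b} ∈ M'.fam.N w)

theorem Agr.child {V : Set ℕ} {d : ℕ} {M M' : Mdl} (h : Agr V (d + 1) M M') (i : Bool) :
    Agr V d (M.child i) (M'.child i) where
  bits w n hn := h.bits (i :: w) n hn
  star n hn := h.star n hn
  eps := Iff.rfl
  fam w hw b hb := h.fam (i :: w) (by simpa using hw) b hb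

theorem evM_agr {V : Set ℕ} (a : Fm) : ∀ (d : ℕ) (M M' : Mdl), a.vars ⊆ V → a.depth ≤ d →
    Agr V d M M' → (evM a M ↔ evM a M') := by
  induction a with
  | pos n => intro d M M' hV hd h; exact h.bits [] n (hV rfl)
  | neg n => intro d M M' hV hd h; exact not_congr (h.bits [] n (hV rfl))
  | bot => intro d M M' hV hd h; exact Iff.rfl
  | top => intro d M M' hV hd h; exact Iff.rfl
  | and a b iha ihb =>
      intro d M M' hV hd h
      exact and_congr (iha d M M' (fun n hn => hV (Or.inl hn)) ((le_max_left _ _).trans hd) h)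
        (ihb d M M' (fun n hn => hV (Or.inr hn)) ((le_max_right _ _).trans hd) h)
  | or a b iha ihb =>
      intro d M M' hV hd h
      exact or_congr (iha d M M' (fun n hn => hV (Or.inl hn)) ((le_max_left _ _).trans hd) h)
        (ihb d M M' (fun n hn => hV (Or.inr hn)) ((le_max_right _ _).trans hd) h)
  | dia a ih =>
      intro d M M' hV hd h
      obtain ⟨d, rfl⟩ : ∃ e, d = e + 1 := ⟨d - 1, by simp only [Fm.depth] at hd; omega⟩
      have hd' : a.depth ≤ d := by simp only [Fm.depth] at hd; omega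
      refine or_congr (h.fam [] (by simp) a hV) (or_congr (ih d _ _ hV hd' (h.child false))
        (or_congr (ih d _ _ hV hd' (h.child true)) (and_congr h.eps (evP_agr a ?_))))
      exact fun n hn => h.star n (hV hn)
  | box a ih =>
      intro d M M' hV hd h
      obtain ⟨d, rfl⟩ : ∃ e, d = e + 1 := ⟨d - 1, by simp only [Fm.depth] at hd; omega⟩
      have hd' : a.depth ≤ d := by simp only [Fm.depth] at hd; omega
      have h0 := h.fam [] (by simp) a.not (by rw [vars_not]; exact hV)
      simp only [evP_not] at h0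
      refine and_congr (not_congr h0) (and_congr (ih d _ _ hV hd' (h.child false))
        (and_congr (ih d _ _ hV hd' (h.child true)) (imp_congr h.eps (evP_agr a ?_))))
      exact fun n hn => h.star n (hV hn)

/-- Truth of the formula is preserved when the valuations increase on the variables of the
formula. -/
structure SMono (a : Fm) : Prop where
  pt : ∀ (s t : Set ℕ) (c : Prop), (∀ n ∈ a.vars, n ∈ s → n ∈ t) → evP s c a → evP t c a
  md : ∀ (S : Type) (F : Fam S) (v v' : S → Set ℕ) (b b' : List Bool → Set ℕ) (t t' : Set ℕ)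
    (e : Prop), (∀ s, ∀ n ∈ a.vars, n ∈ v s → n ∈ v' s) →
    (∀ w, ∀ n ∈ a.vars, n ∈ b w → n ∈ b' w) → (∀ n ∈ a.vars, n ∈ t → n ∈ t') →
    evM a ⟨S, F, v, b, t, e⟩ → evM a ⟨S, F, v', b', t', e⟩

theorem SMono.of_positive (a : Fm) (h : a.Positive) : SMono a := by
  have h1 : ∀ a : Fm, a.Positive → ∀ (s t : Set ℕ) (c : Prop),
      (∀ n ∈ a.vars, n ∈ s → n ∈ t) → evP s c a → evP t c a := by
    intro a
    induction a with
    | pos n => intro _ s t c h hs; exact h n rfl hs
    | neg n => intro hp; exact absurd rfl (hp n)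
    | bot => intro _ s t c _ h; exact h
    | top => intro _ s t c _ h; exact h
    | and a b iha ihb =>
        intro hp s t c h hs
        exact ⟨iha (fun n hn => hp n (Or.inl hn)) s t c (fun n hn => h n (Or.inl hn)) hs.1,
          ihb (fun n hn => hp n (Or.inr hn)) s t c (fun n hn => h n (Or.inr hn)) hs.2⟩
    | or a b iha ihb =>
        intro hp s t c h hs
        exact hs.imp (iha (fun n hn => hp n (Or.inl hn)) s t c (fun n hn => h n (Or.inl hn)))
          (ihb (fun n hn => hp n (Or.inr hn)) s t c (fun n hn => h n (Or.inr hn)))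
    | dia a ih => intro _ s t c _ h; exact h
    | box a ih => intro _ s t c _ h; exact h
  refine ⟨h1 a h, ?_⟩
  intro S
  revert h
  induction a with
  | pos n => intro _ F v v' b b' t t' e hv hb ht h; exact hb [] n rfl h
  | neg n => intro hp; exact absurd rfl (hp n)
  | bot => intro _ F v v' b b' t t' e hv hb ht h; exact h
  | top => intro _ F v v' b b' t t' e hv hb ht h; exact h
  | and a c iha ihc =>
      intro hp F v v' b b' t t' e hv hb ht h
      exact ⟨iha (fun n hn => hp n (Or.inl hn)) F v v' b b' t t' e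
          (fun s n hn => hv s n (Or.inl hn)) (fun s n hn => hb s n (Or.inl hn))
          (fun n hn => ht n (Or.inl hn)) h.1,
        ihc (fun n hn => hp n (Or.inr hn)) F v v' b b' t t' e
          (fun s n hn => hv s n (Or.inr hn)) (fun s n hn => hb s n (Or.inr hn))
          (fun n hn => ht n (Or.inr hn)) h.2⟩
  | or a c iha ihc =>
      intro hp F v v' b b' t t' e hv hb ht h
      exact h.imp (iha (fun n hn => hp n (Or.inl hn)) F v v' b b' t t' e
          (fun s n hn => hv s n (Or.inl hn)) (fun s n hn => hb s n (Or.inl hn))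
          (fun n hn => ht n (Or.inl hn)))
        (ihc (fun n hn => hp n (Or.inr hn)) F v v' b b' t t' e
          (fun s n hn => hv s n (Or.inr hn)) (fun s n hn => hb s n (Or.inr hn))
          (fun n hn => ht n (Or.inr hn)))
  | dia a ih =>
      intro hp F v v' b b' t t' e hv hb ht h
      have hp' : a.Positive := hp
      refine h.imp ?_ (Or.imp ?_ (Or.imp ?_ (And.imp id ?_)))
      · exact F.mono [] _ _ (fun s hs => h1 a hp' _ _ _ (hv s) hs)
      · exact ih hp' (F.child false) v v' _ _ t t' _ hv (fun w => hb (false :: w)) ht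
      · exact ih hp' (F.child true) v v' _ _ t t' _ hv (fun w => hb (true :: w)) ht
      · exact h1 a hp' _ _ _ ht
  | box a ih =>
      intro hp F v v' b b' t t' e hv hb ht h
      have hp' : a.Positive := hp
      refine h.imp ?_ (And.imp ?_ (And.imp ?_ ?_))
      · exact mt (F.mono [] _ _ (fun s hs hs' => hs (h1 a hp' _ _ _ (hv s) hs')))
      · exact ih hp' (F.child false) v v' _ _ t t' _ hv (fun w => hb (false :: w)) ht
      · exact ih hp' (F.child true) v v' _ _ t t' _ hv (fun w => hb (true :: w)) ht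
      · exact fun h he => h1 a hp' _ _ _ ht (h he)

theorem SMono.of_monotoneIn (a : Fm) (h : MonotoneIn Lam a) : SMono a := by
  obtain ⟨q, hq, hqa, hS, hT, hM⟩ := h
  have key : ∀ (s t : Set ℕ) (n : ℕ), n ∈ a.vars →
      (n ∈ {m | (m ∈ a.vars ∧ m ∈ s) ∨ ∃ k ∈ a.vars, m = q k ∧ k ∈ t} ↔ n ∈ s) := by
    intro s t n hn
    constructor
    · rintro (h | ⟨k, hk, hnk, h⟩)
      · exact h.2
      · exact absurd (hnk ▸ hn) (hqa k)
    · intro h
      exact Or.inl ⟨hn, h⟩
  have key2 : ∀ (s t : Set ℕ) (n : ℕ), n ∈ a.vars →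
      (q n ∈ {m | (m ∈ a.vars ∧ m ∈ s) ∨ ∃ k ∈ a.vars, m = q k ∧ k ∈ t} ↔ n ∈ t) := by
    intro s t n hn
    constructor
    · rintro (h | ⟨k, hk, hnk, h⟩)
      · exact absurd h.1 (hqa n)
      · exact (hq hnk) ▸ h
    · intro h
      exact Or.inr ⟨n, hn, rfl, h⟩
  constructor
  · intro s t c hst h
    have hval : ∀ s c, evP s c (imp a (a.subst (fun n => .or (.pos n) (.pos (q n))))) := by
      intro s c
      by_cases hc : c
      · rw [eq_true hc]; exact hT s
      · rw [eq_false hc]; exact hS s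
    have h1 := (evP_imp _ _ _ _).1
      (hval {m | (m ∈ a.vars ∧ m ∈ s) ∨ ∃ k ∈ a.vars, m = q k ∧ k ∈ t} c)
      ((evP_agr a (key s t)).2 h)
    rw [evP_subst] at h1
    refine (evP_agr a ?_).1 h1
    intro n hn
    change (n ∈ {m | (m ∈ a.vars ∧ m ∈ s) ∨ ∃ k ∈ a.vars, m = q k ∧ k ∈ t} ∨
      q n ∈ {m | (m ∈ a.vars ∧ m ∈ s) ∨ ∃ k ∈ a.vars, m = q k ∧ k ∈ t}) ↔ n ∈ t
    rw [key s t n hn, key2 s t n hn]
    exact ⟨fun h => h.elim (hst n hn) id, Or.inr⟩
  · intro S F v v' b b' t t' e hv hb ht h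
    set mx : Set ℕ → Set ℕ → Set ℕ :=
      fun s t => {m | (m ∈ a.vars ∧ m ∈ s) ∨ ∃ k ∈ a.vars, m = q k ∧ k ∈ t} with hmx
    set N : Mdl := ⟨S, F, fun s => mx (v s) (v' s), fun w => mx (b w) (b' w), mx t t', e⟩ with hN
    have h1 : evM a N := by
      refine (evM_agr (V := a.vars) a a.depth _ _ le_rfl le_rfl ?_).1 h
      refine ⟨fun w n hn => (key _ _ n hn).symm, fun n hn => (key _ _ n hn).symm, Iff.rfl, ?_⟩
      intro w _ f hf
      have : {s | evP (v s) False f} = {s | evP (mx (v s) (v' s)) False f} := by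
        ext s
        exact evP_agr f (fun n hn => (key _ _ n (hf hn)).symm)
      change {s | evP (v s) False f} ∈ F.N w ↔ {s | evP (mx (v s) (v' s)) False f} ∈ F.N w
      rw [this]
    have h2 := (evM_imp _ _ _).1 (hM N) h1
    rw [evM_subst] at h2
    refine (evM_agr (V := a.vars) a a.depth _ _ le_rfl le_rfl ?_).1 h2
    have hor : ∀ s s' : Set ℕ, ∀ n ∈ a.vars, (n ∈ s → n ∈ s') →
        ((n ∈ mx s s' ∨ q n ∈ mx s s') ↔ n ∈ s') := by
      intro s s' n hn hss
      rw [key s s' n hn, key2 s s' n hn]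
      exact ⟨fun h => h.elim hss id, Or.inr⟩
    refine ⟨?_, ?_, Iff.rfl, ?_⟩
    · intro w n hn
      change evM (.or (.pos n) (.pos (q n))) (N.node w) ↔ n ∈ b' w
      change (n ∈ (N.node w).bits [] ∨ q n ∈ (N.node w).bits []) ↔ n ∈ b' w
      rw [Mdl.node_bits, List.append_nil]
      exact hor _ _ n hn (hb w n hn)
    · intro n hn
      exact hor _ _ n hn (ht n hn)
    · intro w _ f hf
      have : {s | evP ((N.subst (fun n => .or (.pos n) (.pos (q n)))).val s) False f} =
          {s | evP (v' s) False f} := by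
        ext s
        exact evP_agr f (fun n hn => hor _ _ n (hf hn) (hv s n (hf hn)))
      exact iff_of_eq (congrArg (· ∈ F.N w) this)

end Pool.Agent.Work.MP_4e66c5_lc
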