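import Mathlib

/-!
# Modal formulas, monotone modal logics, interpolation properties

Definitions for MP_4e66c5_lc.
-/

namespace Pool.Agent.Work.MP_4e66c5_lc

/-- Modal formulas built from literals, the two constants, conjunction, disjunction and the two
modalities.  Variables are indexed by natural numbers. -/
inductive Fm : Type
  | pos : ℕ → Fm
  | neg : ℕ → Fm
  | bot : Fm
  | top : Fm
  | and : Fm → Fm → Fm
  | or : Fm → Fm → Fm
  | dia : Fm → Fm
  | box : Fm → Fm

namespace Fm

/-- Negation, defined by the duality laws. -/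
def not : Fm → Fm
  | pos n => neg n
  | neg n => pos n
  | bot => top
  | top => bot
  | and a b => or a.not b.not
  | or a b => and a.not b.not
  | dia a => box a.not
  | box a => dia a.not

/-- Implication. -/
def imp (a b : Fm) : Fm := or a.not b

/-- Equivalence. -/
def iff (a b : Fm) : Fm := and (imp a b) (imp b a)

/-- Uniform substitution: `σ n` is put for the `n`-th variable. -/
def subst (σ : ℕ → Fm) : Fm → Fm
  | pos n => σ n
  | neg n => (σ n).not
  | bot => bot
  | top => top
  | and a b => and (a.subst σ) (b.subst σ)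
  | or a b => or (a.subst σ) (b.subst σ)
  | dia a => dia (a.subst σ)
  | box a => box (a.subst σ)

/-- The set of literals occurring in a formula: `(n, true)` stands for the variable `n`, and
`(n, false)` for its negation. -/
def lits : Fm → Set (ℕ × Bool)
  | pos n => {(n, true)}
  | neg n => {(n, false)}
  | bot => ∅
  | top => ∅
  | and a b => a.lits ∪ b.lits
  | or a b => a.lits ∪ b.lits
  | dia a => a.lits
  | box a => a.lits

/-- The set of variables occurring in a formula. -/
def vars : Fm → Set ℕ
  | pos n => {n}
  | neg n => {n}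
  | bot => ∅
  | top => ∅
  | and a b => a.vars ∪ b.vars
  | or a b => a.vars ∪ b.vars
  | dia a => a.vars
  | box a => a.vars

/-- A formula is positive if it contains no negated variable. -/
def Positive (a : Fm) : Prop := ∀ n, (n, false) ∉ a.lits

/-- A classical tautology: true under every assignment of truth values to formulas that respects
the constants, conjunction, disjunction and negation. -/
def Tautology (a : Fm) : Prop :=
  ∀ e : Fm → Prop, ¬ e bot → e top → (∀ b c, e (and b c) ↔ (e b ∧ e c)) →
    (∀ b c, e (or b c) ↔ (e b ∨ e c)) → (∀ b, e b.not ↔ ¬ e b) → e a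

end Fm

open Fm

/-- Monotone modal logics, as sets of formulas. -/
structure IsMonotoneLogic (Λ : Set Fm) : Prop where
  taut : ∀ a, Tautology a → a ∈ Λ
  mono : imp (dia (pos 0)) (dia (or (pos 0) (pos 1))) ∈ Λ
  mp : ∀ a b, a ∈ Λ → imp a b ∈ Λ → b ∈ Λ
  subst : ∀ (σ : ℕ → Fm) a, a ∈ Λ → a.subst σ ∈ Λ
  congr : ∀ a b, iff a b ∈ Λ → iff (dia a) (dia b) ∈ Λ

/-- Craig interpolation property. -/
def CIP (Λ : Set Fm) : Prop :=
  ∀ a b, imp a b ∈ Λ → ∃ c : Fm, c.vars ⊆ a.vars ∩ b.vars ∧ imp a c ∈ Λ ∧ imp c b ∈ Λ

/-- Lyndon interpolation property. -/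
def LIP (Λ : Set Fm) : Prop :=
  ∀ a b, imp a b ∈ Λ → ∃ c : Fm, c.lits ⊆ a.lits ∩ b.lits ∧ imp a c ∈ Λ ∧ imp c b ∈ Λ

/-- `a` is monotone in `Λ`: the implication from `a(p)` to `a(p ∨ q)` is in `Λ` for some choice
of pairwise distinct variables `q` that do not occur in `a`.  (As logics are closed under
substitution, some choice may be replaced by every choice.) -/
def MonotoneIn (Λ : Set Fm) (a : Fm) : Prop :=
  ∃ q : ℕ → ℕ, Function.Injective q ∧ (∀ n, q n ∉ a.vars) ∧
    imp a (a.subst (fun n => or (pos n) (pos (q n)))) ∈ Λ

/-- Lyndon positivity property. -/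
def LPP (Λ : Set Fm) : Prop :=
  ∀ a, MonotoneIn Λ a → ∃ b : Fm, b.Positive ∧ iff a b ∈ Λ

namespace Fm

@[simp] theorem not_not (a : Fm) : a.not.not = a := by
  induction a <;> simp_all [not]

theorem mem_lits_not (a : Fm) (n : ℕ) (b : Bool) : (n, b) ∈ a.not.lits ↔ (n, !b) ∈ a.lits := by
  induction a with
  | pos m => cases b <;> simp [not, lits]
  | neg m => cases b <;> simp [not, lits]
  | bot => simp [not, lits]
  | top => simp [not, lits]
  | and a c iha ihc => simp [not, lits, iha, ihc]
  | or a c iha ihc => simp [not, lits, iha, ihc]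
  | dia a ih => simp [not, lits, ih]
  | box a ih => simp [not, lits, ih]

theorem mem_vars_iff (a : Fm) (n : ℕ) : n ∈ a.vars ↔ ∃ b, (n, b) ∈ a.lits := by
  induction a with
  | pos m => simp [vars, lits]
  | neg m => simp [vars, lits]
  | bot => simp [vars, lits]
  | top => simp [vars, lits]
  | and a c iha ihc => simp only [vars, lits, Set.mem_union, iha, ihc, exists_or]
  | or a c iha ihc => simp only [vars, lits, Set.mem_union, iha, ihc, exists_or]
  | dia a ih => simpa [vars, lits] using ih
  | box a ih => simpa [vars, lits] using ih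

@[simp] theorem vars_not (a : Fm) : a.not.vars = a.vars := by
  induction a <;> simp_all [not, vars]

theorem vars_finite (a : Fm) : a.vars.Finite := by
  induction a with
  | pos m => simp [vars]
  | neg m => simp [vars]
  | bot => simp [vars]
  | top => simp [vars]
  | and a c iha ihc => exact iha.union ihc
  | or a c iha ihc => exact iha.union ihc
  | dia a ih => exact ih
  | box a ih => exact ih

end Fm

end Pool.Agent.Work.MP_4e66c5_lc
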