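import Pool.Agent.Work.MP_4e66c5_lc.Craig

/-!
# Transfer of semantically monotone formulas, and the Lyndon positivity property
-/

namespace Pool.Agent.Work.MP_4e66c5_lc

open Fm

/-- Canonical model from its parts. -/
def cm (F : Fam (Set ℕ)) (b : List Bool → Set ℕ) (t : Set ℕ) (e : Prop) : Mdl :=
  ⟨Set ℕ, F, id, b, t, e⟩

/-- The relation for the inclusion order. -/
abbrev Rs (F₁ F₂ : Fam (Set ℕ)) : Prop := RR (fun s t : Set ℕ => s ⊆ t) F₁ F₂

theorem Rs.transfer {F₁ F₂ : Fam (Set ℕ)} (h : Rs F₁ F₂) {a : Fm} (ha : SMono a)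
    (b₁ b₂ : List Bool → Set ℕ) (t₁ t₂ : Set ℕ) (e : Prop)
    (hb : ∀ w, ∀ n ∈ a.vars, n ∈ b₁ w → n ∈ b₂ w) (ht : ∀ n ∈ a.vars, n ∈ t₁ → n ∈ t₂)
    (h1 : evM a (cm F₁ b₁ t₁ e)) : evM a (cm F₂ b₂ t₂ e) := by
  obtain ⟨F, hF1, hF2⟩ := h.joint (fun s => le_rfl) (fun s t u h1 h2 => h1.trans h2)
  have h2 : evM a ⟨_, F, fun p => p.1.1, b₁, t₁, e⟩ := by
    refine (evM_agr (V := a.vars) a a.depth _ _ le_rfl le_rfl ?_).1 h1
    exact ⟨fun w n hn => Iff.rfl, fun n hn => Iff.rfl, Iff.rfl,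
      fun w _ f hf => (hF1 {s | evP s False f} w).symm⟩
  have h3 := ha.md _ F (fun p => p.1.1) (fun p => p.1.2) b₁ b₂ t₁ t₂ e
    (fun p n _ hp => p.2 hp) hb ht h2
  refine (evM_agr (V := a.vars) a a.depth _ _ le_rfl le_rfl ?_).1 h3
  exact ⟨fun w n hn => Iff.rfl, fun n hn => Iff.rfl, Iff.rfl,
    fun w _ f hf => hF2 {s | evP s False f} w⟩

/-- Initial segments. -/
def Ini (J : Set (List Bool)) : Prop := ∀ w w', nlt w w' → w' ∈ J → w ∈ J

theorem ini_lt (c : List Bool) : Ini {w | nlt w c} := fun _ _ h h' => nlt_trans h h'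

theorem ini_le (c : List Bool) : Ini {w | ¬ nlt c w} := fun _ _ h h' h'' => h' (nlt_trans h'' h)

theorem exists_nlt_min (T : Finset (List Bool)) (h : T.Nonempty) :
    ∃ c ∈ T, ∀ w ∈ T, ¬ nlt w c := by
  classical
  induction h using Finset.Nonempty.cons_induction with
  | singleton a => exact ⟨a, by simp, fun w hw => by rw [Finset.mem_singleton.1 hw]; exact nlt_irrefl a⟩
  | cons a T ha hT ih =>
      obtain ⟨c, hc, hcT⟩ := ih
      by_cases hac : nlt a c
      · refine ⟨a, by simp, fun w hw => ?_⟩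
        rcases Finset.mem_cons.1 hw with rfl | hw
        · exact nlt_irrefl w
        · exact fun h => hcT w hw (nlt_trans h hac)
      · refine ⟨c, by simp [hc], fun w hw => ?_⟩
        rcases Finset.mem_cons.1 hw with rfl | hw
        · exact hac
        · exact hcT w hw

/-- Passing from a smaller initial segment to a larger one. -/
theorem drift (P : Set (List Bool) → Prop) (d : ℕ)
    (hF : ∀ J J', Ini J → Ini J' → (∀ w : List Bool, w.length < d → (w ∈ J ↔ w ∈ J')) →
      P J → P J')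
    (hstep : ∀ c, P {w | nlt w c} → P {w | ¬ nlt c w}) :
    ∀ J J', Ini J → Ini J' → J ⊆ J' → P J → P J' := by
  classical
  have hfin : {w : List Bool | w.length < d}.Finite := List.finite_length_lt Bool d
  intro J J' hJ hJ' hJJ' hP
  have main : ∀ k : ℕ, ∀ J, Ini J → J ⊆ J' →
      (hfin.toFinset.filter (fun w => w ∈ J' ∧ w ∉ J)).card ≤ k → P J → P J' := by
    intro k
    induction k with
    | zero =>
        intro J hJ hJJ' hk hP
        refine hF J J' hJ hJ' (fun w hw => ⟨fun h => hJJ' h, fun h => ?_⟩) hP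
        by_contra hn
        have : w ∈ hfin.toFinset.filter (fun w => w ∈ J' ∧ w ∉ J) := by
          simp [hw, h, hn]
        rw [Nat.le_zero, Finset.card_eq_zero] at hk
        rw [hk] at this
        simp at this
    | succ k ih =>
        intro J hJ hJJ' hk hP
        by_cases hne : (hfin.toFinset.filter (fun w => w ∈ J' ∧ w ∉ J)).Nonempty
        · obtain ⟨c, hc, hcmin⟩ := exists_nlt_min _ hne
          have hc' : c.length < d ∧ c ∈ J' ∧ c ∉ J := by simpa using hc
          have e1 : P {w | nlt w c} := by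
            refine hF J _ hJ (ini_lt c) (fun w hw => ⟨fun h => ?_, fun h => ?_⟩) hP
            · rcases nlt_tri w c with h' | rfl | h'
              · exact h'
              · exact absurd h hc'.2.2
              · exact absurd (hJ _ _ h' h) hc'.2.2
            · by_contra hn
              refine hcmin w ?_ h
              simp only [Finset.mem_filter, Set.Finite.mem_toFinset, Set.mem_ofPred_eq]
              exact ⟨hw, hJ' _ _ h hc'.2.1, hn⟩
          have e2 := hstep c e1
          refine ih _ (ini_le c) ?_ ?_ e2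
          · intro w hw
            rcases nlt_tri w c with h' | rfl | h'
            · exact hJ' _ _ h' hc'.2.1
            · exact hc'.2.1
            · exact absurd h' hw
          · refine (Finset.card_le_card
              (t := (hfin.toFinset.filter (fun w => w ∈ J' ∧ w ∉ J)).erase c) ?_).trans ?_
            · intro w hw
              simp only [Finset.mem_filter, Set.Finite.mem_toFinset, Set.mem_ofPred_eq,
                Classical.not_not, Finset.mem_erase] at hw ⊢
              refine ⟨?_, hw.1, hw.2.1, fun h => ?_⟩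
              · rintro rfl
                exact nlt_irrefl _ hw.2.2
              · exact hc'.2.2 (hJ _ _ hw.2.2 h)
            · rw [Finset.card_erase_of_mem hc]
              omega
        · refine ih J hJ hJJ' ?_ hP
          rw [Finset.not_nonempty_iff_eq_empty] at hne
          rw [hne]
          simp
  exact main _ J hJ hJJ' le_rfl hP

/-- Status conditions for mixing two families: `X` and `Y` agree on which sets of `U` and `D` are
small and which are large, `X` is below `Y` on `U` and `Y` is below `X` on `D`. -/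
structure Mixable {S : Type} (U D : Set (Set S)) (X Y : Fam S) : Prop where
  u_le : ∀ x ∈ U, ∀ w, x ∈ X.N w → x ∈ Y.N w
  d_le : ∀ x ∈ D, ∀ w, x ∈ Y.N w → x ∈ X.N w
  u_small : ∀ x ∈ U, ∀ w, x ∈ Y.N w → ∃ w', x ∈ X.N w'
  d_small : ∀ x ∈ D, ∀ w, x ∈ X.N w → ∃ w', x ∈ Y.N w'
  u_large : ∀ x ∈ U, ∀ w, x ∉ X.N w → ∃ w', x ∉ Y.N w'
  d_large : ∀ x ∈ D, ∀ w, x ∉ Y.N w → ∃ w', x ∉ X.N w'

theorem Mixable.symm {S : Type} {U D : Set (Set S)} {X Y : Fam S} (h : Mixable U D X Y) :
    Mixable D U Y X :=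
  ⟨h.d_le, h.u_le, h.d_small, h.u_small, h.d_large, h.u_large⟩

/-- The values of the mixed family on the sets in `U` and `D`. -/
def mixK {S : Type} (U D : Set (Set S)) (X Y : Fam S) (J : Set (List Bool)) (w : List Bool) :
    Set (Set S) :=
  {x | (x ∈ U ∧ x ∈ Y.N w ∧ (x ∈ X.N w ∨ w ∈ J)) ∨ (x ∈ D ∧ x ∈ X.N w)}

/-- The values of the mixed family. -/
def mixN {S : Type} (U D : Set (Set S)) (X Y : Fam S) (J : Set (List Bool)) (w : List Bool) :
    Set (Set S) :=
  {x | (∃ e ∈ U ∪ D, e ⊆ x ∧ e ∈ mixK U D X Y J w) ∨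
        ((∃ e ∈ U ∪ D, ∃ w₀, e ⊆ x ∧ e ∈ mixK U D X Y J w₀) ∧
          ∀ e ∈ U ∪ D, x ⊆ e → ∀ w₁, e ∈ mixK U D X Y J w₁)}

theorem mixK_u {S : Type} {U D : Set (Set S)} {X Y : Fam S} (h : Mixable U D X Y)
    {J : Set (List Bool)} {w : List Bool} {x : Set S} (hx : x ∈ U) :
    x ∈ mixK U D X Y J w ↔ (x ∈ Y.N w ∧ (x ∈ X.N w ∨ w ∈ J)) := by
  constructor
  · rintro (h' | ⟨_, h'⟩)
    · exact h'.2
    · exact ⟨h.u_le x hx w h', Or.inl h'⟩
  · intro h'
    exact Or.inl ⟨hx, h'⟩

theorem mixK_d {S : Type} {U D : Set (Set S)} {X Y : Fam S} (h : Mixable U D X Y)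
    {J : Set (List Bool)} {w : List Bool} {x : Set S} (hx : x ∈ D) :
    x ∈ mixK U D X Y J w ↔ x ∈ X.N w := by
  constructor
  · rintro (⟨_, h', _⟩ | h')
    · exact h.d_le x hx w h'
    · exact h'.2
  · intro h'
    exact Or.inr ⟨hx, h'⟩

theorem Fam.mix {S : Type} {U D : Set (Set S)} {X Y : Fam S} (h : Mixable U D X Y)
    (huniv : Set.univ ∈ U) {J : Set (List Bool)} (hJ : Ini J) :
    ∃ F : Fam S, (∀ w, F.N w = mixN U D X Y J w) ∧
      (∀ x ∈ U, ∀ w, x ∈ F.N w ↔ (x ∈ Y.N w ∧ (x ∈ X.N w ∨ w ∈ J))) ∧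
      (∀ x ∈ D, ∀ w, x ∈ F.N w ↔ x ∈ X.N w) := by
  obtain ⟨F, hF1, hF2⟩ := Fam.extend (U ∪ D) (mixK U D X Y J) (by
      rintro w x y (hx | hx) (hy | hy) hxy hxk
      · rw [mixK_u h hx] at hxk
        rw [mixK_u h hy]
        exact ⟨Y.mono _ _ _ hxy hxk.1, hxk.2.imp (X.mono _ _ _ hxy) id⟩
      · rw [mixK_u h hx] at hxk
        rw [mixK_d h hy]
        exact h.d_le y hy w (Y.mono _ _ _ hxy hxk.1)
      · rw [mixK_d h hx] at hxk
        rw [mixK_u h hy]
        have := X.mono _ _ _ hxy hxk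
        exact ⟨h.u_le y hy w this, Or.inl this⟩
      · rw [mixK_d h hx] at hxk
        rw [mixK_d h hy]
        exact X.mono _ _ _ hxy hxk) (by
      rintro x y w₀ w₁ w w' hx hy hxy hw hx0 hy1 hy'
      -- `y` is not large in `X` and in `Y`
      have hyX : ∃ v, y ∉ X.N v := by
        rcases hy with hy | hy
        · rw [mixK_u h hy] at hy1
          by_contra hc
          push Not at hc
          exact hy1 ⟨h.u_le y hy _ (hc w₁), Or.inl (hc w₁)⟩
        · rw [mixK_d h hy] at hy1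
          exact ⟨w₁, hy1⟩
      have hyY : ∃ v, y ∉ Y.N v := by
        obtain ⟨v, hv⟩ := hyX
        rcases hy with hy | hy
        · exact h.u_large y hy v hv
        · exact ⟨v, fun h' => hv (h.d_le y hy v h')⟩
      have hxX : ∃ v, x ∈ X.N v := by
        rcases hx with hx | hx
        · rw [mixK_u h hx] at hx0
          exact h.u_small x hx _ hx0.1
        · rw [mixK_d h hx] at hx0
          exact ⟨w₀, hx0⟩
      have hxY : ∃ v, x ∈ Y.N v := by
        obtain ⟨v, hv⟩ := hxX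
        rcases hx with hx | hx
        · exact ⟨v, h.u_le x hx v hv⟩
        · exact h.d_small x hx v hv
      obtain ⟨a, ha⟩ := hyX
      obtain ⟨b, hb⟩ := hyY
      obtain ⟨c, hc⟩ := hxX
      obtain ⟨e, he⟩ := hxY
      -- gap in `X` and `Y`
      have gX : y ∈ X.N w' → x ∈ X.N w := X.gap x y c a w w' hxy hw hc ha
      have gY : y ∈ Y.N w' → x ∈ Y.N w := Y.gap x y e b w w' hxy hw he hb
      rcases hx with hx | hx
      · rw [mixK_u h hx]
        rcases hy with hy | hy
        · rw [mixK_u h hy] at hy'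
          refine ⟨gY hy'.1, hy'.2.imp gX (hJ _ _ hw)⟩
        · rw [mixK_d h hy] at hy'
          exact ⟨h.u_le x hx w (gX hy'), Or.inl (gX hy')⟩
      · rw [mixK_d h hx]
        rcases hy with hy | hy
        · rw [mixK_u h hy] at hy'
          exact h.d_le x hx w (gY hy'.1)
        · rw [mixK_d h hy] at hy'
          exact gX hy') (by
      rintro w (⟨_, h', _⟩ | ⟨_, h'⟩)
      · exact Y.empty w h'
      · exact X.empty w h') (Or.inl huniv) (by
      intro w
      rw [mixK_u h huniv]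
      exact ⟨Y.univ w, Or.inl (X.univ w)⟩)
  refine ⟨F, hF1, fun x hx w => ?_, fun x hx w => ?_⟩
  · rw [hF2 x (Or.inl hx) w, mixK_u h hx]
  · rw [hF2 x (Or.inr hx) w, mixK_d h hx]

/-- The mixed family at a node depends only on whether the node is in the initial segment. -/
theorem mixN_congr {S : Type} {U D : Set (Set S)} {X Y : Fam S} (h : Mixable U D X Y)
    {J J' : Set (List Bool)} {w : List Bool} (hw : w ∈ J ↔ w ∈ J') :
    mixN U D X Y J w = mixN U D X Y J' w := by
  have h1 : ∀ e, (e ∈ mixK U D X Y J w ↔ e ∈ mixK U D X Y J' w) := by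
    intro e
    simp only [mixK, Set.mem_ofPred_eq, hw]
  have h2 : ∀ J J' : Set (List Bool), ∀ e ∈ U ∪ D, ∀ w₀, e ∈ mixK U D X Y J w₀ →
      ∃ w₁, e ∈ mixK U D X Y J' w₁ := by
    rintro J J' e (he | he) w₀ hw₀
    · rw [mixK_u h he] at hw₀
      obtain ⟨v, hv⟩ := h.u_small e he w₀ hw₀.1
      exact ⟨v, (mixK_u h he).2 ⟨h.u_le e he v hv, Or.inl hv⟩⟩
    · rw [mixK_d h he] at hw₀
      exact ⟨w₀, (mixK_d h he).2 hw₀⟩
  have h3 : ∀ J J' : Set (List Bool), ∀ e ∈ U ∪ D, (∀ w₀, e ∈ mixK U D X Y J w₀) →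
      ∀ w₁, e ∈ mixK U D X Y J' w₁ := by
    rintro J J' e (he | he) hall w₁
    · have hX : ∀ v, e ∈ X.N v := by
        intro v
        by_contra hc
        obtain ⟨v', hv'⟩ := h.u_large e he v hc
        exact hv' ((mixK_u h he).1 (hall v')).1
      exact (mixK_u h he).2 ⟨h.u_le e he _ (hX w₁), Or.inl (hX w₁)⟩
    · exact (mixK_d h he).2 ((mixK_d h he).1 (hall w₁))
  ext x
  simp only [mixN, Set.mem_ofPred_eq, h1]
  refine or_congr Iff.rfl (and_congr ⟨?_, ?_⟩ ⟨?_, ?_⟩)
  · rintro ⟨e, he, w₀, hex, hek⟩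
    obtain ⟨w₁, hw₁⟩ := h2 J J' e he w₀ hek
    exact ⟨e, he, w₁, hex, hw₁⟩
  · rintro ⟨e, he, w₀, hex, hek⟩
    obtain ⟨w₁, hw₁⟩ := h2 J' J e he w₀ hek
    exact ⟨e, he, w₁, hex, hw₁⟩
  · intro hall e he hxe
    exact h3 J J' e he (hall e he hxe)
  · intro hall e he hxe
    exact h3 J' J e he (hall e he hxe)

end Pool.Agent.Work.MP_4e66c5_lc
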