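import Pool.Agent.Work.MP_4e66c5_lc.Separate

/-!
# The joint lemma and Craig interpolation
-/

namespace Pool.Agent.Work.MP_4e66c5_lc

open Fm

/-- The relation between two families from which a joint family can be built. -/
structure RR {P : Type} (rel : P → P → Prop) (F₁ F₂ : Fam P) : Prop where
  up : ∀ u : Set P, (∀ s t, rel s t → s ∈ u → t ∈ u) → ∀ w, u ∈ F₁.N w → u ∈ F₂.N w
  down : ∀ d : Set P, (∀ s t, rel s t → t ∈ d → s ∈ d) → ∀ w, d ∈ F₂.N w → d ∈ F₁.N w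
  up' : ∀ u : Set P, (∀ s t, rel s t → s ∈ u → t ∈ u) → ∀ w₀ w₁ w w', nlt w w' →
    u ∈ F₁.N w₀ → u ∉ F₂.N w₁ → u ∈ F₂.N w' → u ∈ F₁.N w
  down' : ∀ d : Set P, (∀ s t, rel s t → t ∈ d → s ∈ d) → ∀ w₀ w₁ w w', nlt w w' →
    d ∈ F₂.N w₀ → d ∉ F₁.N w₁ → d ∈ F₁.N w' → d ∈ F₂.N w

theorem RR.joint {P : Type} {rel : P → P → Prop} (hr : ∀ s, rel s s)
    (ht : ∀ s t u, rel s t → rel t u → rel s u) {F₁ F₂ : Fam P} (h : RR rel F₁ F₂) :
    ∃ F : Fam {p : P × P // rel p.1 p.2},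
      (∀ a w, (fun p : {p : P × P // rel p.1 p.2} => p.1.1) ⁻¹' a ∈ F.N w ↔ a ∈ F₁.N w) ∧
      (∀ b w, (fun p : {p : P × P // rel p.1 p.2} => p.1.2) ⁻¹' b ∈ F.N w ↔ b ∈ F₂.N w) := by
  -- sets between
  have hup : ∀ a b : Set P, (fun p : {p : P × P // rel p.1 p.2} => p.1.1) ⁻¹' a ⊆
      (fun p : {p : P × P // rel p.1 p.2} => p.1.2) ⁻¹' b →
      ∃ u : Set P, (∀ s t, rel s t → s ∈ u → t ∈ u) ∧ a ⊆ u ∧ u ⊆ b := by
    intro a b hab
    refine ⟨{t | ∃ s ∈ a, rel s t}, ?_, fun s hs => ⟨s, hs, hr s⟩, ?_⟩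
    · rintro s t hst ⟨r, hr, hrs⟩
      exact ⟨r, hr, ht _ _ _ hrs hst⟩
    · rintro t ⟨s, hs, hst⟩
      exact hab (show (⟨(s, t), hst⟩ : {p : P × P // rel p.1 p.2}) ∈ _ from hs)
  have hdn : ∀ a b : Set P, (fun p : {p : P × P // rel p.1 p.2} => p.1.2) ⁻¹' b ⊆
      (fun p : {p : P × P // rel p.1 p.2} => p.1.1) ⁻¹' a →
      ∃ d : Set P, (∀ s t, rel s t → t ∈ d → s ∈ d) ∧ b ⊆ d ∧ d ⊆ a := by
    intro a b hab
    refine ⟨{s | ∃ t ∈ b, rel s t}, ?_, fun s hs => ⟨s, hs, hr s⟩, ?_⟩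
    · rintro s t hst ⟨r, hr, hrs⟩
      exact ⟨r, hr, ht _ _ _ hst hrs⟩
    · rintro s ⟨t, ht, hst⟩
      exact hab (show (⟨(s, t), hst⟩ : {p : P × P // rel p.1 p.2}) ∈ _ from ht)
  refine Fam.joint _ _ (fun s => ⟨⟨(s, s), hr s⟩, rfl⟩) (fun s => ⟨⟨(s, s), hr s⟩, rfl⟩) F₁ F₂
    ?_ ?_ ?_ ?_
  · intro a b hab w haw
    obtain ⟨u, hu, hau, hub⟩ := hup a b hab
    exact F₂.mono w u b hub (h.up u hu w (F₁.mono w a u hau haw))
  · intro a b hab w hbw
    obtain ⟨d, hd, hbd, hda⟩ := hdn a b hab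
    exact F₁.mono w d a hda (h.down d hd w (F₂.mono w b d hbd hbw))
  · intro a b hab w₀ w₁ w w' hw ha hb hb'
    obtain ⟨u, hu, hau, hub⟩ := hup a b hab
    obtain ⟨w2, h1, h2⟩ := nlt_dense hw
    obtain ⟨w3, h3, h4⟩ := nlt_dense h2
    have hu1 : u ∈ F₁.N w₀ := F₁.mono _ _ _ hau ha
    have hu2 : u ∈ F₂.N w₀ := h.up u hu _ hu1
    have hu3 : u ∉ F₂.N w₁ := fun h' => hb (F₂.mono _ _ _ hub h')
    have hu4 : u ∈ F₂.N w3 := F₂.gap u b w₀ w₁ w3 w' hub h4 hu2 hb hb'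
    have hu5 : u ∈ F₁.N w2 := h.up' u hu w₀ w₁ w2 w3 h3 hu1 hu3 hu4
    exact F₁.gap a u w₀ w₁ w w2 hau h1 ha (fun h' => hu3 (h.up u hu _ h')) hu5
  · intro a b hab w₀ w₁ w w' hw hb ha ha'
    obtain ⟨d, hd, hbd, hda⟩ := hdn a b hab
    obtain ⟨w2, h1, h2⟩ := nlt_dense hw
    obtain ⟨w3, h3, h4⟩ := nlt_dense h2
    have hd1 : d ∈ F₂.N w₀ := F₂.mono _ _ _ hbd hb
    have hd2 : d ∈ F₁.N w₀ := h.down d hd _ hd1
    have hd3 : d ∉ F₁.N w₁ := fun h' => ha (F₁.mono _ _ _ hda h')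
    have hd4 : d ∈ F₁.N w3 := F₁.gap d a w₀ w₁ w3 w' hda h4 hd2 ha ha'
    have hd5 : d ∈ F₂.N w2 := h.down' d hd w₀ w₁ w2 w3 h3 hd1 hd3 hd4
    exact F₂.gap b d w₀ w₁ w w2 hbd h1 hb (fun h' => hd3 (h.down d hd _ h')) hd5

/-- Gluing two valuations. -/
def glue (V₁ V₂ s t : Set ℕ) : Set ℕ := {n | (n ∈ V₁ ∧ n ∈ s) ∨ (n ∈ V₂ ∧ n ∈ t)}

theorem glue_left {V₁ V₂ s t : Set ℕ} (h : ∀ n ∈ V₁ ∩ V₂, n ∈ s ↔ n ∈ t) {n : ℕ} (hn : n ∈ V₁) :
    n ∈ s ↔ n ∈ glue V₁ V₂ s t := by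
  constructor
  · exact fun hs => Or.inl ⟨hn, hs⟩
  · rintro (⟨_, hs⟩ | ⟨hn2, hs⟩)
    · exact hs
    · exact (h n ⟨hn, hn2⟩).2 hs

theorem glue_right {V₁ V₂ s t : Set ℕ} (h : ∀ n ∈ V₁ ∩ V₂, n ∈ s ↔ n ∈ t) {n : ℕ} (hn : n ∈ V₂) :
    n ∈ t ↔ n ∈ glue V₁ V₂ s t := by
  constructor
  · exact fun hs => Or.inr ⟨hn, hs⟩
  · rintro (⟨hn1, hs⟩ | ⟨_, hs⟩)
    · exact (h n ⟨hn1, hn⟩).1 hs
    · exact hs

theorem frag_vars (V : Set ℕ) : Frag {a : Fm | a.vars ⊆ V} where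
  and a b ha hb := by
    intro n hn
    exact hn.elim (fun h => ha h) (fun h => hb h)
  or a b ha hb := by
    intro n hn
    exact hn.elim (fun h => ha h) (fun h => hb h)
  top := by simp [vars]
  bot := by simp [vars]

/-- Craig interpolation at points. -/
theorem craig_pt (c : Prop) (a b : Fm) (h : ∀ s, evP s c a → evP s c b) :
    ∃ f : Fm, f.vars ⊆ a.vars ∩ b.vars ∧ (∀ s, evP s c a → evP s c f) ∧
      ∀ s, evP s c f → evP s c b := by
  by_contra hcon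
  obtain ⟨s, t, hs, ht, hst⟩ := (good_evP c).separate (frag_vars (a.vars ∩ b.vars)) a b
    (by rintro ⟨f, hf, h1, h2⟩; exact hcon ⟨f, hf, h1, h2⟩)
  have hag : ∀ n ∈ a.vars ∩ b.vars, n ∈ s ↔ n ∈ t := by
    intro n hn
    constructor
    · exact hst (.pos n) (by simpa [vars] using hn)
    · intro h'
      by_contra h''
      exact hst (.neg n) (by simpa [vars] using hn) h'' h'
  apply ht
  rw [evP_agr (t := glue a.vars b.vars s t) b (fun n hn => glue_right hag hn)]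
  apply h
  rwa [← evP_agr a (fun n hn => glue_left hag hn)]

/-- Craig interpolation at models. -/
theorem craig_md (a b : Fm) (h : ∀ M, evM a M → evM b M) :
    ∃ f : Fm, f.vars ⊆ a.vars ∩ b.vars ∧ (∀ M, evM a M → evM f M) ∧
      ∀ M, evM f M → evM b M := by
  classical
  by_contra hcon
  obtain ⟨C, D, hC, hD, hCD⟩ := good_evM.separate (frag_vars (a.vars ∩ b.vars)) a b (by
    rintro ⟨f, hf, h1, h2⟩
    refine hcon ⟨f, hf, fun M hM => ?_, fun M hM => ?_⟩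
    · exact (evM_can f M).1 (h1 _ ((evM_can a M).2 hM))
    · exact (evM_can b M).1 (h2 _ ((evM_can f M).2 hM)))
  have hCD' : ∀ f : Fm, f.vars ⊆ a.vars ∩ b.vars → (evM f C.mdl ↔ evM f D.mdl) := by
    intro f hf
    constructor
    · exact hCD f hf
    · intro h'
      by_contra h''
      exact (evM_not _ _).1 (hCD f.not (by rw [Set.mem_ofPred_eq, vars_not]; exact hf)
        ((evM_not _ _).2 h'')) h'
  -- the common part
  have hbits : ∀ w, ∀ n ∈ a.vars ∩ b.vars, n ∈ C.bits w ↔ n ∈ D.bits w := by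
    intro w n hn
    have := hCD' (atNode w (.pos n)) (by rw [vars_atNode]; simpa [vars] using hn)
    rw [evM_atNode, evM_atNode] at this
    change n ∈ (C.mdl.node w).bits [] ↔ n ∈ (D.mdl.node w).bits [] at this
    rw [Mdl.node_bits, Mdl.node_bits, List.append_nil] at this
    exact this
  have hstar : ∀ n ∈ a.vars ∩ b.vars, n ∈ C.star ↔ n ∈ D.star := by
    intro n hn
    have := hCD' (starF (.pos n)) (by rw [vars_starF]; simpa [vars] using hn)
    rw [evM_starF, evM_starF] at this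
    exact this
  have heps : C.eps ↔ D.eps := by
    have := hCD' fR (by
      rw [show fR.vars = ∅ by simp [fR, sMain, vars]]
      exact Set.empty_subset _)
    rw [evM_fR, evM_fR] at this
    exact this
  have hfam : ∀ x : Set (Set ℕ),
      (∀ s t : Set ℕ, (∀ n ∈ a.vars ∩ b.vars, n ∈ s ↔ n ∈ t) → s ∈ x → t ∈ x) →
      ∀ w, x ∈ C.fam.N w ↔ x ∈ D.fam.N w := by
    intro x hx w
    have hfin : (a.vars ∩ b.vars).Finite := (vars_finite a).inter_of_left _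
    obtain ⟨f, hf, -, hfx⟩ := definable hfin.toFinset x (by
      intro s t hst
      exact hx s t (fun n hn => hst n (hfin.mem_toFinset.2 hn)))
    rw [hfin.coe_toFinset] at hf
    have h1 : {s | evP (id s) False f} = x := by
      ext s
      exact hfx s False
    have := hCD' (atNode w (gS f)) (by rw [vars_atNode, vars_gS]; exact hf)
    rw [evM_atNode, evM_atNode, evM_atNode_gS, evM_atNode_gS] at this
    change {s | evP (id s) False f} ∈ C.fam.N w ↔ {s | evP (id s) False f} ∈ D.fam.N w at this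
    rwa [h1] at this
  -- the joint family
  have hRR : RR (fun s t : Set ℕ => ∀ n ∈ a.vars ∩ b.vars, n ∈ s ↔ n ∈ t) C.fam D.fam := by
    constructor
    · intro u hu w
      exact (hfam u hu w).1
    · intro u hu w
      exact (hfam u (fun s t hst => hu t s (fun n hn => (hst n hn).symm)) w).2
    · intro u hu w₀ w₁ w w' hw h0 h1 h2
      exact (hfam u hu w).2 (D.fam.anti hw h2)
    · intro u hu w₀ w₁ w w' hw h0 h1 h2
      exact (hfam u (fun s t hst => hu t s (fun n hn => (hst n hn).symm)) w).1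
        (C.fam.anti hw h2)
  obtain ⟨F, hF1, hF2⟩ := hRR.joint (fun s n _ => Iff.rfl)
    (fun s t u h1 h2 n hn => (h1 n hn).trans (h2 n hn))
  set J : Mdl := ⟨_, F, fun p => glue a.vars b.vars p.1.1 p.1.2,
    fun w => glue a.vars b.vars (C.bits w) (D.bits w), glue a.vars b.vars C.star D.star, C.eps⟩
    with hJ
  have hJa : evM a J := by
    refine (evM_agr (V := a.vars) a a.depth _ _ le_rfl le_rfl ?_).1 hC
    refine ⟨fun w n hn => glue_left (hbits w) hn, fun n hn => glue_left hstar hn, Iff.rfl, ?_⟩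
    intro w _ f hf
    rw [show {s | evP (C.mdl.val s) False f} ∈ C.mdl.fam.N w ↔
      {s : Set ℕ | evP s False f} ∈ C.fam.N w from Iff.rfl, ← hF1]
    apply iff_of_eq
    change _ = (_ ∈ F.N w)
    congr 1
    ext p
    exact evP_agr f (fun n hn => glue_left p.2 (hf hn))
  have hJb : ¬ evM b J := by
    intro hb
    apply hD
    refine (evM_agr (V := b.vars) b b.depth _ _ le_rfl le_rfl ?_).2 hb
    refine ⟨fun w n hn => glue_right (hbits w) hn, fun n hn => glue_right hstar hn, heps.symm, ?_⟩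
    intro w _ f hf
    rw [show {s | evP (D.mdl.val s) False f} ∈ D.mdl.fam.N w ↔
      {s : Set ℕ | evP s False f} ∈ D.fam.N w from Iff.rfl, ← hF2]
    apply iff_of_eq
    change _ = (_ ∈ F.N w)
    congr 1
    ext p
    exact evP_agr f (fun n hn => glue_right p.2 (hf hn))
  exact hJb (h J hJa)

/-- The logic has Craig interpolation. -/
theorem cip_Lam : CIP Lam := by
  intro a b hab
  obtain ⟨h1, h2, h3⟩ := hab
  obtain ⟨f1, hf1, hf1a, hf1b⟩ := craig_pt False a b (fun s => (evP_imp _ _ _ _).1 (h1 s))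
  obtain ⟨f2, hf2, hf2a, hf2b⟩ := craig_pt True a b (fun s => (evP_imp _ _ _ _).1 (h2 s))
  obtain ⟨f3, hf3, hf3a, hf3b⟩ := craig_md a b (fun M => (evM_imp _ _ _).1 (h3 M))
  refine ⟨comb f1 f2 f3, ?_, ⟨fun s => ?_, fun s => ?_, fun M => ?_⟩,
    ⟨fun s => ?_, fun s => ?_, fun M => ?_⟩⟩
  · rw [vars_comb]
    exact Set.union_subset hf1 (Set.union_subset hf2 hf3)
  · rw [evP_imp, evP_comb_false]; exact hf1a s
  · rw [evP_imp, evP_comb_true]; exact hf2a s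
  · rw [evM_imp, evM_comb]; exact hf3a M
  · rw [evP_imp, evP_comb_false]; exact hf1b s
  · rw [evP_imp, evP_comb_true]; exact hf2b s
  · rw [evM_imp, evM_comb]; exact hf3b M

end Pool.Agent.Work.MP_4e66c5_lc
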