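import Pool.Agent.Work.MP_4e66c5_lc.Sem

/-!
# Extension, joint realisation and modification of families
-/

namespace Pool.Agent.Work.MP_4e66c5_lc

/-- A family given on a collection `E` of sets extends to all sets. -/
theorem Fam.extend {S : Type} (E : Set (Set S)) (K : List Bool → Set (Set S))
    (hmono : ∀ w x y, x ∈ E → y ∈ E → x ⊆ y → x ∈ K w → y ∈ K w)
    (hgap : ∀ x y w₀ w₁ w w', x ∈ E → y ∈ E → x ⊆ y → nlt w w' → x ∈ K w₀ → y ∉ K w₁ →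
      y ∈ K w' → x ∈ K w)
    (hempty : ∀ w, ∅ ∉ K w) (hE : Set.univ ∈ E) (huniv : ∀ w, Set.univ ∈ K w) :
    ∃ F : Fam S, (∀ w, F.N w = {x | (∃ e ∈ E, e ⊆ x ∧ e ∈ K w) ∨
        ((∃ e ∈ E, ∃ w₀, e ⊆ x ∧ e ∈ K w₀) ∧ ∀ e ∈ E, x ⊆ e → ∀ w₁, e ∈ K w₁)}) ∧
      ∀ x ∈ E, ∀ w, x ∈ F.N w ↔ x ∈ K w := by
  refine ⟨⟨fun w => {x | (∃ e ∈ E, e ⊆ x ∧ e ∈ K w) ∨
        ((∃ e ∈ E, ∃ w₀, e ⊆ x ∧ e ∈ K w₀) ∧ ∀ e ∈ E, x ⊆ e → ∀ w₁, e ∈ K w₁)}, ?_, ?_, ?_, ?_⟩,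
      fun w => rfl, ?_⟩
  · rintro w x y hxy (⟨e, he, hex, hek⟩ | ⟨⟨e, he, w₀, hex, hek⟩, h⟩)
    · exact Or.inl ⟨e, he, hex.trans hxy, hek⟩
    · exact Or.inr ⟨⟨e, he, w₀, hex.trans hxy, hek⟩, fun e' he' hy => h e' he' (hxy.trans hy)⟩
  · intro x y w₀ w₁ w w' hxy hw hx hy hy'
    simp only [Set.mem_setOf_eq, not_or, not_and, not_exists] at hx hy hy'
    obtain ⟨hy1, hy2⟩ := hy
    -- the set `y` is not small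
    have hns : ∃ e ∈ E, e ⊆ y ∧ e ∈ K w' := by
      rcases hy' with h | ⟨⟨e, he, w2, hey, hek⟩, h⟩
      · exact h
      · exact absurd h (fun h => hy2 ⟨e, he, w2, hey, hek⟩ h)
    obtain ⟨e2, he2, he2y, he2k⟩ := hns
    have h3 := hy2 ⟨e2, he2, w', he2y, he2k⟩
    push Not at h3
    obtain ⟨e', he', hye', w2, hw2⟩ := h3
    have hx' : ∃ e ∈ E, ∃ w3, e ⊆ x ∧ e ∈ K w3 := by
      rcases hx with ⟨e, he, h⟩ | ⟨h, -⟩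
      · exact ⟨e, he, w₀, h⟩
      · exact h
    obtain ⟨e1, he1, w3, he1x, he1k⟩ := hx'
    left
    refine ⟨e1, he1, he1x, ?_⟩
    exact hgap e1 e' w3 w2 w w' he1 he' ((he1x.trans hxy).trans hye') hw he1k hw2
      (hmono w' e2 e' he2 he' (he2y.trans hye') he2k)
  · rintro w (⟨e, he, hex, hek⟩ | ⟨⟨e, he, w₀, hex, hek⟩, h⟩)
    · rw [Set.subset_empty_iff] at hex
      exact hempty w (hex ▸ hek)
    · rw [Set.subset_empty_iff] at hex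
      exact hempty _ (hex ▸ hek)
  · intro w
    exact Or.inl ⟨Set.univ, hE, le_rfl, huniv w⟩
  · intro x hx w
    constructor
    · rintro (⟨e, he, hex, hek⟩ | ⟨-, h⟩)
      · exact hmono w e x he hx hex hek
      · exact h x hx le_rfl w
    · intro h
      exact Or.inl ⟨x, hx, le_rfl, h⟩

/-- Two families on images of `S` are realised by one family on `S`. -/
theorem Fam.joint {S S₁ S₂ : Type} (π₁ : S → S₁) (π₂ : S → S₂) (h₁ : Function.Surjective π₁)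
    (h₂ : Function.Surjective π₂) (F₁ : Fam S₁) (F₂ : Fam S₂)
    (m12 : ∀ a b, π₁ ⁻¹' a ⊆ π₂ ⁻¹' b → ∀ w, a ∈ F₁.N w → b ∈ F₂.N w)
    (m21 : ∀ a b, π₂ ⁻¹' b ⊆ π₁ ⁻¹' a → ∀ w, b ∈ F₂.N w → a ∈ F₁.N w)
    (g12 : ∀ a b, π₁ ⁻¹' a ⊆ π₂ ⁻¹' b → ∀ w₀ w₁ w w', nlt w w' → a ∈ F₁.N w₀ → b ∉ F₂.N w₁ →
      b ∈ F₂.N w' → a ∈ F₁.N w)
    (g21 : ∀ a b, π₂ ⁻¹' b ⊆ π₁ ⁻¹' a → ∀ w₀ w₁ w w', nlt w w' → b ∈ F₂.N w₀ → a ∉ F₁.N w₁ →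
      a ∈ F₁.N w' → b ∈ F₂.N w) :
    ∃ F : Fam S, (∀ a w, π₁ ⁻¹' a ∈ F.N w ↔ a ∈ F₁.N w) ∧
      (∀ b w, π₂ ⁻¹' b ∈ F.N w ↔ b ∈ F₂.N w) := by
  classical
  have k₁ : ∀ a w, (∃ b, π₂ ⁻¹' b = π₁ ⁻¹' a ∧ b ∈ F₂.N w) → a ∈ F₁.N w := by
    rintro a w ⟨b, hb, hbw⟩
    exact m21 a b hb.le w hbw
  have k₂ : ∀ b w, (∃ a, π₁ ⁻¹' a = π₂ ⁻¹' b ∧ a ∈ F₁.N w) → b ∈ F₂.N w := by
    rintro b w ⟨a, ha, haw⟩
    exact m12 a b ha.le w haw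
  have s₁ : ∀ a a', π₁ ⁻¹' a ⊆ π₁ ⁻¹' a' → a ⊆ a' := fun a a' h =>
    (Set.preimage_subset_preimage_iff (by rw [h₁.range_eq]; exact Set.subset_univ _)).1 h
  have s₂ : ∀ a a', π₂ ⁻¹' a ⊆ π₂ ⁻¹' a' → a ⊆ a' := fun a a' h =>
    (Set.preimage_subset_preimage_iff (by rw [h₂.range_eq]; exact Set.subset_univ _)).1 h
  set E : Set (Set S) := {x | (∃ a, x = π₁ ⁻¹' a) ∨ (∃ b, x = π₂ ⁻¹' b)} with hE
  set K : List Bool → Set (Set S) := fun w => {x | (∃ a, x = π₁ ⁻¹' a ∧ a ∈ F₁.N w) ∨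
    (∃ b, x = π₂ ⁻¹' b ∧ b ∈ F₂.N w)} with hK
  have K₁ : ∀ a w, π₁ ⁻¹' a ∈ K w ↔ a ∈ F₁.N w := by
    intro a w
    constructor
    · rintro (⟨a', h, h'⟩ | ⟨b, h, h'⟩)
      · rwa [le_antisymm (s₁ _ _ h.le) (s₁ _ _ h.ge)]
      · exact k₁ a w ⟨b, h.symm, h'⟩
    · intro h
      exact Or.inl ⟨a, rfl, h⟩
  have K₂ : ∀ b w, π₂ ⁻¹' b ∈ K w ↔ b ∈ F₂.N w := by
    intro b w
    constructor
    · rintro (⟨a, h, h'⟩ | ⟨b', h, h'⟩)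
      · exact k₂ b w ⟨a, h.symm, h'⟩
      · rwa [le_antisymm (s₂ _ _ h.le) (s₂ _ _ h.ge)]
    · intro h
      exact Or.inr ⟨b, rfl, h⟩
  obtain ⟨F, -, hF⟩ := Fam.extend E K (by
      rintro w x y (⟨a, rfl⟩ | ⟨b, rfl⟩) (⟨a', rfl⟩ | ⟨b', rfl⟩) hxy hx
      · rw [K₁] at *
        exact F₁.mono _ _ _ (s₁ _ _ hxy) hx
      · rw [K₁] at hx; rw [K₂]
        exact m12 _ _ hxy w hx
      · rw [K₂] at hx; rw [K₁]
        exact m21 _ _ hxy w hx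
      · rw [K₂] at *
        exact F₂.mono _ _ _ (s₂ _ _ hxy) hx) (by
      rintro x y w₀ w₁ w w' (⟨a, rfl⟩ | ⟨b, rfl⟩) (⟨a', rfl⟩ | ⟨b', rfl⟩) hxy hw hx hy hy'
      · rw [K₁] at *
        exact F₁.gap _ _ w₀ w₁ w w' (s₁ _ _ hxy) hw hx hy hy'
      · rw [K₁] at *; rw [K₂] at hy hy'
        exact g12 _ _ hxy w₀ w₁ w w' hw hx hy hy'
      · rw [K₂] at *; rw [K₁] at hy hy'
        exact g21 _ _ hxy w₀ w₁ w w' hw hx hy hy'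
      · rw [K₂] at *
        exact F₂.gap _ _ w₀ w₁ w w' (s₂ _ _ hxy) hw hx hy hy') (by
      intro w h
      have : (∅ : Set S) = π₁ ⁻¹' ∅ := by simp
      rw [this, K₁] at h
      exact F₁.empty w h) (Or.inl ⟨Set.univ, by simp⟩) (by
      intro w
      exact Or.inl ⟨Set.univ, by simp, F₁.univ w⟩)
  exact ⟨F, fun a w => (hF _ (Or.inl ⟨a, rfl⟩) w).trans (K₁ a w),
    fun b w => (hF _ (Or.inr ⟨b, rfl⟩) w).trans (K₂ b w)⟩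

/-- Making an up-set `L` of sets large and a down-set `Q` of sets small. -/
def Fam.modify {S : Type} (F : Fam S) (L Q : Set (Set S))
    (hL : ∀ x y, x ⊆ y → x ∈ L → y ∈ L) (hQ : ∀ x y, x ⊆ y → y ∈ Q → x ∈ Q)
    (hLe : ∅ ∉ L) (hu : Set.univ ∉ Q) : Fam S where
  N w := {x | x ∈ L ∨ (x ∈ F.N w ∧ x ∉ Q)}
  mono w x y h := by
    rintro (hx | ⟨hx, hx'⟩)
    · exact Or.inl (hL _ _ h hx)
    · exact Or.inr ⟨F.mono _ _ _ h hx, fun hy => hx' (hQ _ _ h hy)⟩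
  gap x y w₀ w₁ w w' h hw hx hy hy' := by
    simp only [Set.mem_setOf_eq, not_or, not_and, not_not] at hx hy hy' ⊢
    have hyL : y ∉ L := hy.1
    have hxL : x ∉ L := fun hx => hyL (hL _ _ h hx)
    have hx2 : x ∈ F.N w₀ ∧ x ∉ Q := hx.resolve_left hxL
    have hy2 : y ∈ F.N w' ∧ y ∉ Q := hy'.resolve_left hyL
    have hy3 : y ∉ F.N w₁ := fun h' => hy2.2 (hy.2 h')
    exact Or.inr ⟨F.gap x y w₀ w₁ w w' h hw hx2.1 hy3 hy2.1, hx2.2⟩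
  empty w := by
    rintro (h | ⟨h, -⟩)
    · exact hLe h
    · exact F.empty w h
  univ w := Or.inr ⟨F.univ w, hu⟩

end Pool.Agent.Work.MP_4e66c5_lc
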