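import Pool.Agent.Work.MP_4e66c5_lc.Positivity

/-!
# Failure of Lyndon interpolation
-/

namespace Pool.Agent.Work.MP_4e66c5_lc

open Fm

/-- The antecedent. -/
def phi : Fm := .and (atNode [false, false] (gS (.and (.pos 1) (.pos 0))))
  (atNode [false] (gS (.pos 1))).not

/-- The consequent. -/
def psi : Fm := .or (atNode [true] (gS (.pos 0))) (gS (.pos 0)).not

theorem evM_phi (M : Mdl) : evM phi M ↔ ({s | 1 ∈ M.val s ∧ 0 ∈ M.val s} ∈ M.fam.N [false, false] ∧
    {s | 1 ∈ M.val s} ∉ M.fam.N [false]) := by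
  simp only [phi, evM]
  rw [evM_not, evM_atNode, evM_atNode, evM_atNode_gS, evM_atNode_gS]
  exact Iff.rfl

theorem evM_psi (M : Mdl) : evM psi M ↔ ({s | 0 ∈ M.val s} ∈ M.fam.N [true] ∨
    {s | 0 ∈ M.val s} ∉ M.fam.N []) := by
  simp only [psi, evM]
  rw [evM_not, evM_atNode, evM_atNode_gS, evM_gS]
  exact Iff.rfl

theorem phi_imp_psi : imp phi psi ∈ Lam := by
  refine ⟨fun s => ?_, fun s => ?_, fun M => ?_⟩
  · rw [evP_imp]
    intro h
    exact absurd h.1 id
  · rw [evP_imp]
    intro h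
    exact absurd trivial h.2
  · rw [evM_imp, evM_phi, evM_psi]
    rintro ⟨h1, h2⟩
    by_contra h3
    rw [not_or, Classical.not_not] at h3
    apply h2
    refine M.fam.mono _ _ _ (fun s hs => hs.1) (M.fam.gap {s | 1 ∈ M.val s ∧ 0 ∈ M.val s}
      {s | 0 ∈ M.val s} [false, false] [true] [false] [] (fun s hs => hs.2) ?_ h1 h3.1 h3.2)
    simp [nlt]

/-- The test family attached to an initial segment. -/
def KN (J : Set (List Bool)) (w : List Bool) : Set (Set (Set ℕ)) :=
  {x | x = Set.univ ∨ ({s | 0 ∈ s} ⊆ x ∧ w ∈ J)}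

theorem exists_KN {J : Set (List Bool)} (hJ : Ini J) :
    ∃ F : Fam (Set ℕ), ∀ w, F.N w = KN J w := by
  refine ⟨⟨KN J, ?_, ?_, ?_, ?_⟩, fun w => rfl⟩
  · rintro w x y hxy (rfl | ⟨h1, h2⟩)
    · exact Or.inl (Set.univ_subset_iff.1 hxy)
    · exact Or.inr ⟨h1.trans hxy, h2⟩
  · rintro x y w₀ w₁ w w' hxy hw hx hy hy'
    have hyu : y ≠ Set.univ := fun h => hy (Or.inl h)
    rcases hx with rfl | hx
    · exact absurd (Set.univ_subset_iff.1 hxy) hyu
    · rcases hy' with h | hy'
      · exact absurd h hyu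
      · exact Or.inr ⟨hx.1, hJ _ _ hw hy'.2⟩
  · rintro w (h | ⟨h, -⟩)
    · exact Set.empty_ne_univ h
    · exact h (show ({0} : Set ℕ) ∈ {s : Set ℕ | 0 ∈ s} from rfl)
  · intro w
    exact Or.inl rfl

theorem not_lip_Lam : ¬ LIP Lam := by
  intro hlip
  obtain ⟨c, hc, h1, h2⟩ := hlip phi psi phi_imp_psi
  have hlits : c.lits ⊆ {(0, true)} := by
    intro l hl
    have hl1 : l ∈ ({(1, true)} ∪ {(0, true)} : Set (ℕ × Bool)) ∪ {(1, false)} := by
      have := (hc hl).1
      simp only [phi, lits, Fm.lits] at this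
      rcases this with h | h
      · rw [lits_atNode, lits_gS] at h
        exact Or.inl h
      · obtain ⟨n, b⟩ := l
        rw [mem_lits_not, lits_atNode, lits_gS] at h
        right
        simp only [lits, Set.mem_singleton_iff, Prod.mk.injEq] at h ⊢
        refine ⟨h.1, ?_⟩
        cases b <;> simp_all
    have hl2 : l ∈ ({(0, true)} : Set (ℕ × Bool)) ∪ {(0, false)} := by
      have := (hc hl).2
      simp only [psi, lits, Fm.lits] at this
      rcases this with h | h
      · rw [lits_atNode, lits_gS] at h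
        exact Or.inl h
      · obtain ⟨n, b⟩ := l
        rw [mem_lits_not, lits_gS] at h
        right
        simp only [lits, Set.mem_singleton_iff, Prod.mk.injEq] at h ⊢
        refine ⟨h.1, ?_⟩
        cases b <;> simp_all
    obtain ⟨n, b⟩ := l
    simp only [Set.mem_union, Set.mem_singleton_iff, Prod.mk.injEq] at hl1 hl2 ⊢
    cases b <;> simp_all
  have hvars : c.vars ⊆ {0} := by
    intro n hn
    rw [mem_vars_iff] at hn
    obtain ⟨b, hb⟩ := hn
    have := hlits hb
    simp only [Set.mem_singleton_iff, Prod.mk.injEq] at this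
    exact this.1
  have hpos : c.Positive := by
    intro n hn
    have := hlits hn
    simp at this
  have hs := SMono.of_positive c hpos
  -- the predicate that drifts
  have start : ∃ F : Fam (Set ℕ), (∀ w, F.N w = KN {w | nlt w [false]} w) ∧
      evM c (cm F (fun _ => ∅) ∅ False) := by
    obtain ⟨F, hF⟩ := exists_KN (ini_lt [false])
    refine ⟨F, hF, ?_⟩
    have h3 : evM phi ⟨Set ℕ, F, fun s => {n | n ≤ 1 ∧ 0 ∈ s}, fun _ => ∅, ∅, False⟩ := by
      rw [evM_phi]
      constructor
      · change _ ∈ F.N _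
        rw [hF]
        right
        refine ⟨fun s hs => ?_, ?_⟩
        · have : (0 : ℕ) ∈ s := hs
          simp [this]
        · simp [nlt]
      · change _ ∉ F.N _
        rw [hF]
        rintro (h | ⟨-, h⟩)
        · have : (∅ : Set ℕ) ∈ {s : Set ℕ | 1 ∈ {n | n ≤ 1 ∧ 0 ∈ s}} := by
            have h' : (∅ : Set ℕ) ∈ (Set.univ : Set (Set ℕ)) := trivial
            rw [← h] at h'
            exact h'
          simp at this
        · exact nlt_irrefl _ h
    have h4 := (evM_imp _ _ _).1 (h1.2.2 _) h3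
    refine (evM_agr (V := {0}) c c.depth _ _ hvars le_rfl ?_).1 h4
    refine ⟨fun w n hn => Iff.rfl, fun n hn => Iff.rfl, Iff.rfl, fun w _ f hf => ?_⟩
    change {s : Set ℕ | evP {n | n ≤ 1 ∧ 0 ∈ s} False f} ∈ F.N w ↔
      {s : Set ℕ | evP s False f} ∈ F.N w
    have : {s : Set ℕ | evP {n | n ≤ 1 ∧ 0 ∈ s} False f} = {s : Set ℕ | evP s False f} := by
      ext s
      refine evP_agr f (fun n hn => ?_)
      have : n = 0 := hf hn
      subst this
      simp
    rw [this]
  obtain ⟨F, hF, hFc⟩ := drift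
    (fun J => ∃ F : Fam (Set ℕ), (∀ w, F.N w = KN J w) ∧ evM c (cm F (fun _ => ∅) ∅ False))
    c.depth (by
      rintro J J' - hJ' hJJ ⟨F, hF, hFc⟩
      obtain ⟨F', hF'⟩ := exists_KN hJ'
      refine ⟨F', hF', (evM_agr (V := c.vars) c c.depth _ _ le_rfl le_rfl ?_).1 hFc⟩
      refine ⟨fun w n hn => Iff.rfl, fun n hn => Iff.rfl, Iff.rfl, fun w hw f hf => ?_⟩
      change {s | evP (id s) False f} ∈ F.N w ↔ {s | evP (id s) False f} ∈ F'.N w
      rw [hF, hF']
      simp only [KN, Set.mem_ofPred_eq, hJJ w hw]) (by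
      rintro v ⟨F, hF, hFc⟩
      obtain ⟨F', hF'⟩ := exists_KN (ini_le v)
      refine ⟨F', hF', Rs.transfer (F₁ := F) ?_ hs _ _ _ _ _ (fun _ _ _ => id) (fun _ _ => id)
        hFc⟩
      have hdown : ∀ d : Set (Set ℕ), (∀ s t, s ⊆ t → t ∈ d → s ∈ d) → ∀ w, d ∈ F'.N w →
          d = Set.univ := by
        intro d hd w hw
        rw [hF'] at hw
        rcases hw with hw | hw
        · exact hw
        · rw [Set.eq_univ_iff_forall]
          intro s
          exact hd s (insert 0 s) (Set.subset_insert _ _) (hw.1 (Set.mem_insert 0 s))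
      constructor
      · intro u hu w hw
        rw [hF] at hw
        rw [hF']
        exact hw.imp id (fun h => ⟨h.1, fun h' => nlt_irrefl _ (nlt_trans h.2 h')⟩)
      · intro d hd w hw
        rw [hdown d hd w hw]
        exact F.univ w
      · intro u hu w₀ w₁ w w' hw h0 h1 h2
        rw [hF'] at h1 h2
        rw [hF]
        rcases h2 with h2 | h2
        · exact absurd (Or.inl h2) h1
        · refine Or.inr ⟨h2.1, ?_⟩
          rcases nlt_tri w' v with h' | rfl | h'
          · exact nlt_trans hw h'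
          · exact hw
          · exact absurd h' h2.2
      · intro d hd w₀ w₁ w w' hw h0 h1 h2
        rw [hdown d hd _ h0]
        exact F'.univ w)
    {w | nlt w [false]} {w | ¬ nlt [] w} (ini_lt _) (ini_le _) (by
      intro w hw hw'
      have := nlt_trans hw' hw
      simp [nlt] at this) start
  have h5 := (evM_imp _ _ _).1 (h2.2.2 _) hFc
  rw [evM_psi] at h5
  have hne : ({s : Set ℕ | 0 ∈ s}) ≠ Set.univ := by
    intro h
    have h' : (∅ : Set ℕ) ∈ (Set.univ : Set (Set ℕ)) := trivial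
    rw [← h] at h'
    exact h'
  rcases h5 with h5 | h5
  · have h6 : {s : Set ℕ | 0 ∈ s} ∈ F.N [true] := h5
    rw [hF] at h6
    rcases h6 with h6 | h6
    · exact hne h6
    · exact h6.2 (by simp [nlt])
  · apply h5
    change {s : Set ℕ | 0 ∈ s} ∈ F.N []
    rw [hF]
    exact Or.inr ⟨le_rfl, nlt_irrefl _⟩

end Pool.Agent.Work.MP_4e66c5_lc
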