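import Pool.Agent.Work.MP_4e66c5_lc.Chain

/-!
# The Lyndon positivity property
-/

namespace Pool.Agent.Work.MP_4e66c5_lc

open Fm

/-- Upper sets of valuations. -/
def UU : Set (Set (Set ℕ)) := {u | ∀ s t : Set ℕ, s ⊆ t → s ∈ u → t ∈ u}

/-- Lower sets of valuations. -/
def DD : Set (Set (Set ℕ)) := {d | ∀ s t : Set ℕ, s ⊆ t → t ∈ d → s ∈ d}

/-- The relation given by transfer of positive formulas. -/
structure PosLe (F₁ F₂ : Fam (Set ℕ)) : Prop where
  up : ∀ u ∈ UU, ∀ w, u ∈ F₁.N w → u ∈ F₂.N w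
  down : ∀ d ∈ DD, ∀ w, d ∈ F₂.N w → d ∈ F₁.N w

theorem PosLe.ends {F₁ F₂ : Fam (Set ℕ)} (h : PosLe F₁ F₂) :
    ∃ A B : Fam (Set ℕ), Rs F₁ A ∧ Rs B F₂ ∧ Mixable UU DD A B := by
  let LA : Set (Set (Set ℕ)) := {x | ∃ u ∈ UU, u ⊆ x ∧ ∀ w, u ∈ F₂.N w}
  let QA : Set (Set (Set ℕ)) := {x | ∃ d ∈ DD, x ⊆ d ∧ ∀ w, d ∉ F₂.N w}
  let LB : Set (Set (Set ℕ)) := {x | ∃ d ∈ DD, d ⊆ x ∧ (∀ w, d ∈ F₁.N w) ∧ ∃ w, d ∈ F₂.N w}
  let QB : Set (Set (Set ℕ)) := {x | ∃ u ∈ UU, x ⊆ u ∧ (∀ w, u ∉ F₁.N w) ∧ ∃ w, u ∉ F₂.N w}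
  let A : Fam (Set ℕ) := F₁.modify LA QA
    (by rintro x y hxy ⟨u, hu, hux, h⟩; exact ⟨u, hu, hux.trans hxy, h⟩)
    (by rintro x y hxy ⟨d, hd, hdx, h⟩; exact ⟨d, hd, hxy.trans hdx, h⟩)
    (by
      rintro ⟨u, hu, hux, h⟩
      rw [Set.subset_empty_iff] at hux
      exact F₂.empty [] (hux ▸ h []))
    (by
      rintro ⟨d, hd, hdx, h⟩
      rw [Set.univ_subset_iff] at hdx
      exact h [] (hdx ▸ F₂.univ []))
  let B : Fam (Set ℕ) := F₂.modify LB QB
    (by rintro x y hxy ⟨u, hu, hux, h⟩; exact ⟨u, hu, hux.trans hxy, h⟩)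
    (by rintro x y hxy ⟨d, hd, hdx, h⟩; exact ⟨d, hd, hxy.trans hdx, h⟩)
    (by
      rintro ⟨u, hu, hux, h, -⟩
      rw [Set.subset_empty_iff] at hux
      exact F₁.empty [] (hux ▸ h []))
    (by
      rintro ⟨d, hd, hdx, h, -⟩
      rw [Set.univ_subset_iff] at hdx
      exact h [] (hdx ▸ F₁.univ []))
  have hA : ∀ w x, x ∈ A.N w ↔ (x ∈ LA ∨ (x ∈ F₁.N w ∧ x ∉ QA)) := fun w x => Iff.rfl
  have hB : ∀ w x, x ∈ B.N w ↔ (x ∈ LB ∨ (x ∈ F₂.N w ∧ x ∉ QB)) := fun w x => Iff.rfl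
  -- basic facts
  have a1 : ∀ x ∈ LA, ∀ w, x ∈ F₂.N w := by
    rintro x ⟨u, hu, hux, h⟩ w
    exact F₂.mono _ _ _ hux (h w)
  have a2 : ∀ x w, x ∈ F₂.N w → x ∉ QA := by
    rintro x w hx ⟨d, hd, hxd, h⟩
    exact h w (F₂.mono _ _ _ hxd hx)
  have b1 : ∀ x ∈ LB, ∀ w, x ∈ F₁.N w := by
    rintro x ⟨u, hu, hux, h, -⟩ w
    exact F₁.mono _ _ _ hux (h w)
  have b2 : ∀ x w, x ∈ F₁.N w → x ∉ QB := by
    rintro x w hx ⟨d, hd, hxd, h, -⟩
    exact h w (F₁.mono _ _ _ hxd hx)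
  have b3 : ∀ x ∈ LB, x ∉ QA := by
    rintro x ⟨u, hu, hux, -, w, hw⟩
    exact a2 x w (F₂.mono _ _ _ hux hw)
  have b4 : ∀ x ∈ LA, x ∉ QB := by
    rintro x hx ⟨u, hu, hux, -, w, hw⟩
    exact hw (F₂.mono _ _ _ hux (a1 x hx w))
  refine ⟨A, B, ⟨?_, ?_, ?_, ?_⟩, ⟨?_, ?_, ?_, ?_⟩, ⟨?_, ?_, ?_, ?_, ?_, ?_⟩⟩
  · intro u hu w hw
    exact Or.inr ⟨hw, a2 u w (h.up u hu w hw)⟩
  · rintro d hd w (hw | hw)
    · exact h.down d hd w (a1 d hw w)
    · exact hw.1
  · intro u hu w₀ w₁ w w' hw h0 h1 h2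
    rw [hA] at h1 h2
    rcases h2 with h2 | h2
    · exact absurd (Or.inl h2) h1
    · exact F₁.anti hw h2.1
  · intro d hd w₀ w₁ w w' hw h0 h1 h2
    rw [hA] at h0 ⊢
    rcases h0 with h0 | h0
    · exact absurd (h.down d hd _ (a1 d h0 w₁)) h1
    · exact Or.inr ⟨F₁.anti hw h2, h0.2⟩
  · rintro u hu w (hw | hw)
    · exact h.up u hu w (b1 u hw w)
    · exact hw.1
  · intro d hd w hw
    exact Or.inr ⟨hw, b2 d w (h.down d hd w hw)⟩
  · intro u hu w₀ w₁ w w' hw h0 h1 h2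
    rw [hB] at h0 ⊢
    rcases h0 with h0 | h0
    · exact absurd (h.up u hu _ (b1 u h0 w₁)) h1
    · exact Or.inr ⟨F₂.anti hw h2, h0.2⟩
  · intro d hd w₀ w₁ w w' hw h0 h1 h2
    rw [hB] at h1 h2
    rcases h2 with h2 | h2
    · exact absurd (Or.inl h2) h1
    · exact F₂.anti hw h2.1
  · -- u_le
    rintro x hx w (hw | hw)
    · exact Or.inr ⟨a1 x hw w, b4 x hw⟩
    · exact Or.inr ⟨h.up x hx w hw.1, b2 x w hw.1⟩
  · -- d_le
    rintro x hx w (hw | hw)
    · exact Or.inr ⟨b1 x hw w, b3 x hw⟩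
    · exact Or.inr ⟨h.down x hx w hw.1, a2 x w hw.1⟩
  · -- u_small
    rintro x hx w (hw | hw)
    · exact ⟨w, Or.inr ⟨b1 x hw w, b3 x hw⟩⟩
    · by_cases h1 : ∃ w', x ∈ F₁.N w'
      · obtain ⟨w', hw'⟩ := h1
        exact ⟨w', Or.inr ⟨hw', a2 x w hw.1⟩⟩
      · refine ⟨w, Or.inl ⟨x, hx, le_rfl, ?_⟩⟩
        by_contra h2
        push Not at h1 h2
        exact hw.2 ⟨x, hx, le_rfl, h1, h2⟩
  · -- d_small
    rintro x hx w (hw | hw)
    · exact ⟨w, Or.inr ⟨a1 x hw w, b4 x hw⟩⟩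
    · by_contra h1
      push Not at h1
      refine hw.2 ⟨x, hx, le_rfl, fun w' h2 => ?_⟩
      exact h1 w' (Or.inr ⟨h2, b2 x w hw.1⟩)
  · -- u_large
    intro x hx w hw
    rw [hA, not_or, not_and] at hw
    by_contra h1
    push Not at h1
    apply hw.1
    refine ⟨x, hx, le_rfl, fun w' => ?_⟩
    rcases h1 w' with h2 | h2
    · exact absurd (b3 x h2) (hw.2 (b1 x h2 w))
    · exact h2.1
  · -- d_large
    intro x hx w hw
    rw [hB, not_or, not_and] at hw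
    have hLA : x ∉ LA := fun h' => hw.2 (a1 x h' w) (b4 x h')
    by_cases h1 : ∃ w', x ∉ F₁.N w'
    · obtain ⟨w', hw'⟩ := h1
      exact ⟨w', fun h' => h'.elim hLA (fun h' => hw' h'.1)⟩
    · refine ⟨w, fun h' => h'.elim hLA (fun h' => h'.2 ⟨x, hx, le_rfl, fun w' hw' => ?_⟩)⟩
      push Not at h1
      exact hw.1 ⟨x, hx, le_rfl, h1, w', hw'⟩

theorem univ_UU : Set.univ ∈ UU := fun _ _ _ _ => trivial
theorem univ_DD : Set.univ ∈ DD := fun _ _ _ _ => trivial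

theorem Rs.of_eq {F F' : Fam (Set ℕ)} (hU : ∀ x ∈ UU, ∀ w, x ∈ F.N w ↔ x ∈ F'.N w)
    (hD : ∀ x ∈ DD, ∀ w, x ∈ F.N w ↔ x ∈ F'.N w) : Rs F F' where
  up u hu w h := (hU u hu w).1 h
  down d hd w h := (hD d hd w).2 h
  up' u hu w₀ w₁ w w' hw _ _ h := (hU u hu w).2 (F'.anti hw h)
  down' d hd w₀ w₁ w w' hw _ _ h := (hD d hd w).1 (F.anti hw h)

theorem mixN_mem {U D : Set (Set (Set ℕ))} {X Y : Fam (Set ℕ)} (h : Mixable U D X Y)
    (huniv : Set.univ ∈ U) {J : Set (List Bool)} (hJ : Ini J) {F : Fam (Set ℕ)}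
    (hF : ∀ w, F.N w = mixN U D X Y J w) :
    (∀ x ∈ U, ∀ w, x ∈ F.N w ↔ (x ∈ Y.N w ∧ (x ∈ X.N w ∨ w ∈ J))) ∧
      (∀ x ∈ D, ∀ w, x ∈ F.N w ↔ x ∈ X.N w) := by
  obtain ⟨F', h1, h2, h3⟩ := Fam.mix h huniv hJ
  constructor
  · intro x hx w
    rw [hF, ← h1, h2 x hx w]
  · intro x hx w
    rw [hF, ← h1, h3 x hx w]

theorem mix_equiv {U D : Set (Set (Set ℕ))} {X Y : Fam (Set ℕ)} (h : Mixable U D X Y)
    (huniv : Set.univ ∈ U) (a : Fm) (b : List Bool → Set ℕ) (t : Set ℕ) (e : Prop)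
    (J J' : Set (List Bool)) (hJ' : Ini J')
    (hJJ : ∀ w : List Bool, w.length < a.depth → (w ∈ J ↔ w ∈ J'))
    (hP : ∃ F : Fam (Set ℕ), (∀ w, F.N w = mixN U D X Y J w) ∧ evM a (cm F b t e)) :
    ∃ F : Fam (Set ℕ), (∀ w, F.N w = mixN U D X Y J' w) ∧ evM a (cm F b t e) := by
  obtain ⟨F, hF, ha⟩ := hP
  obtain ⟨F', hF', -, -⟩ := Fam.mix h huniv hJ'
  refine ⟨F', hF', (evM_agr (V := a.vars) a a.depth _ _ le_rfl le_rfl ?_).1 ha⟩
  refine ⟨fun w n hn => Iff.rfl, fun n hn => Iff.rfl, Iff.rfl, fun w hw f hf => ?_⟩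
  change {s | evP (id s) False f} ∈ F.N w ↔ {s | evP (id s) False f} ∈ F'.N w
  rw [hF, hF', mixN_congr h (hJJ w hw)]

theorem PosLe.transfer {F₁ F₂ : Fam (Set ℕ)} (h : PosLe F₁ F₂) {a : Fm} (ha : SMono a)
    (b₁ b₂ : List Bool → Set ℕ) (t₁ t₂ : Set ℕ) (e : Prop)
    (hb : ∀ w, ∀ n ∈ a.vars, n ∈ b₁ w → n ∈ b₂ w) (ht : ∀ n ∈ a.vars, n ∈ t₁ → n ∈ t₂)
    (h1 : evM a (cm F₁ b₁ t₁ e)) : evM a (cm F₂ b₂ t₂ e) := by
  obtain ⟨A, B, hA, hB, hm⟩ := h.ends
  have tr : ∀ F F' : Fam (Set ℕ), Rs F F' → evM a (cm F b₁ t₁ e) → evM a (cm F' b₁ t₁ e) :=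
    fun F F' hFF => hFF.transfer ha b₁ b₁ t₁ t₁ e (fun _ _ _ => id) (fun _ _ => id)
  have hA' := tr _ _ hA h1
  have ini0 : Ini ∅ := fun _ _ _ h => h
  have ini1 : Ini Set.univ := fun _ _ _ _ => trivial
  -- the first phase
  have p0 : ∃ F : Fam (Set ℕ), (∀ w, F.N w = mixN UU DD A B ∅ w) ∧ evM a (cm F b₁ t₁ e) := by
    obtain ⟨F, hF, hU, hD⟩ := Fam.mix hm univ_UU ini0
    refine ⟨F, hF, tr _ _ (Rs.of_eq ?_ ?_) hA'⟩
    · intro x hx w
      rw [hU x hx w]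
      simp only [Set.mem_empty_iff_false, or_false]
      exact ⟨fun h => ⟨hm.u_le x hx w h, h⟩, fun h => h.2⟩
    · intro x hx w
      rw [hD x hx w]
  have p1 := drift
    (fun J => ∃ F : Fam (Set ℕ), (∀ w, F.N w = mixN UU DD A B J w) ∧ evM a (cm F b₁ t₁ e))
    a.depth (fun J J' _ hJ' hJJ hP => mix_equiv hm univ_UU a b₁ t₁ e J J' hJ' hJJ hP) (by
      rintro c ⟨F, hF, hFa⟩
      obtain ⟨F', hF', hU', hD'⟩ := Fam.mix hm univ_UU (ini_le c)
      obtain ⟨hU, hD⟩ := mixN_mem hm univ_UU (ini_lt c) hF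
      refine ⟨F', hF', tr _ _ ?_ hFa⟩
      constructor
      · intro u hu w hw
        rw [hU u hu w] at hw
        rw [hU' u hu w]
        refine ⟨hw.1, hw.2.imp id (fun h h' => nlt_irrefl _ (nlt_trans h h'))⟩
      · intro d hd w hw
        rw [hD' d hd w] at hw
        rwa [hD d hd w]
      · intro u hu w₀ w₁ w w' hw _ _ h2
        rw [hU' u hu w'] at h2
        rw [hU u hu w]
        refine ⟨B.anti hw h2.1, h2.2.imp (A.anti hw) (fun h => ?_)⟩
        rcases nlt_tri w' c with h' | rfl | h'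
        · exact nlt_trans hw h'
        · exact hw
        · exact absurd h' h
      · intro d hd w₀ w₁ w w' hw _ _ h2
        rw [hD d hd w'] at h2
        rw [hD' d hd w]
        exact A.anti hw h2)
    ∅ Set.univ ini0 ini1 (Set.empty_subset _) p0
  obtain ⟨F, hF, hFa⟩ := p1
  obtain ⟨hU, hD⟩ := mixN_mem hm univ_UU ini1 hF
  -- the second phase
  have q1 : ∃ F : Fam (Set ℕ), (∀ w, F.N w = mixN DD UU B A Set.univ w) ∧
      evM a (cm F b₁ t₁ e) := by
    obtain ⟨F', hF', hD', hU'⟩ := Fam.mix hm.symm univ_DD ini1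
    refine ⟨F', hF', tr _ _ (Rs.of_eq ?_ ?_) hFa⟩
    · intro x hx w
      rw [hU x hx w, hU' x hx w]
      simp
    · intro x hx w
      rw [hD x hx w, hD' x hx w]
      simp
  have q0 : ∃ F : Fam (Set ℕ), (∀ w, F.N w = mixN DD UU B A ∅ w) ∧
      evM a (cm F b₁ t₁ e) := by
    by_contra hcon
    refine drift
      (fun J => ¬ ∃ F : Fam (Set ℕ), (∀ w, F.N w = mixN DD UU B A J w) ∧ evM a (cm F b₁ t₁ e))
      a.depth (fun J J' hJ _ hJJ hP hP' => hP
        (mix_equiv hm.symm univ_DD a b₁ t₁ e J' J hJ (fun w hw => (hJJ w hw).symm) hP'))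
      ?_ ∅ Set.univ ini0 ini1 (Set.empty_subset _) hcon q1
    rintro c hc ⟨F, hF, hFa⟩
    apply hc
    obtain ⟨F', hF', hD', hU'⟩ := Fam.mix hm.symm univ_DD (ini_lt c)
    obtain ⟨hD, hU⟩ := mixN_mem hm.symm univ_DD (ini_le c) hF
    refine ⟨F', hF', tr _ _ ?_ hFa⟩
    constructor
    · intro u hu w hw
      rw [hU u hu w] at hw
      rwa [hU' u hu w]
    · intro d hd w hw
      rw [hD' d hd w] at hw
      rw [hD d hd w]
      exact ⟨hw.1, hw.2.imp id (fun h h' => nlt_irrefl _ (nlt_trans h h'))⟩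
    · intro u hu w₀ w₁ w w' hw _ _ h2
      rw [hU' u hu w'] at h2
      rw [hU u hu w]
      exact B.anti hw h2
    · intro d hd w₀ w₁ w w' hw _ _ h2
      rw [hD d hd w'] at h2
      rw [hD' d hd w]
      refine ⟨A.anti hw h2.1, h2.2.imp (B.anti hw) (fun h => ?_)⟩
      rcases nlt_tri w' c with h' | rfl | h'
      · exact nlt_trans hw h'
      · exact hw
      · exact absurd h' h
  obtain ⟨F, hF, hFa⟩ := q0
  obtain ⟨hD, hU⟩ := mixN_mem hm.symm univ_DD ini0 hF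
  have hB' : evM a (cm B b₁ t₁ e) := by
    refine tr _ _ (Rs.of_eq ?_ ?_) hFa
    · intro x hx w
      rw [hU x hx w]
    · intro x hx w
      rw [hD x hx w]
      simp only [Set.mem_empty_iff_false, or_false]
      exact ⟨fun h => h.2, fun h => ⟨hm.d_le x hx w h, h⟩⟩
  exact hB.transfer ha b₁ b₂ t₁ t₂ e hb ht hB'

theorem frag_pos (V : Set ℕ) : Frag {a : Fm | a.vars ⊆ V ∧ a.Positive} where
  and a b ha hb := by
    refine ⟨(frag_vars V).and a b ha.1 hb.1, fun n hn => ?_⟩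
    exact hn.elim (ha.2 n) (hb.2 n)
  or a b ha hb := by
    refine ⟨(frag_vars V).or a b ha.1 hb.1, fun n hn => ?_⟩
    exact hn.elim (ha.2 n) (hb.2 n)
  top := ⟨(frag_vars V).top, fun n hn => hn⟩
  bot := ⟨(frag_vars V).bot, fun n hn => hn⟩

/-- Positivity at points. -/
theorem posit_pt (c : Prop) (a : Fm) (ha : SMono a) :
    ∃ f : Fm, f.Positive ∧ ∀ s, evP s c a ↔ evP s c f := by
  by_contra hcon
  obtain ⟨s, t, hs, ht, hst⟩ := (good_evP c).separate (frag_pos a.vars) a a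
    (by rintro ⟨f, hf, h1, h2⟩; exact hcon ⟨f, hf.2, fun s => ⟨h1 s, h2 s⟩⟩)
  apply ht
  refine ha.pt s t c (fun n hn => ?_) hs
  exact hst (.pos n) ⟨by simpa [vars] using hn, fun m hm => by simp [lits] at hm⟩

/-- Positivity at models. -/
theorem posit_md (a : Fm) (ha : SMono a) :
    ∃ f : Fm, f.Positive ∧ ∀ M, evM a M ↔ evM f M := by
  classical
  by_contra hcon
  obtain ⟨C, D, hC, hD, hCD⟩ := good_evM.separate (frag_pos a.vars) a a (by
    rintro ⟨f, hf, h1, h2⟩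
    refine hcon ⟨f, hf.2, fun M => ⟨fun hM => ?_, fun hM => ?_⟩⟩
    · exact (evM_can f M).1 (h1 _ ((evM_can a M).2 hM))
    · exact (evM_can a M).1 (h2 _ ((evM_can f M).2 hM)))
  have hlits : ∀ {f g : Fm}, f.lits = g.lits → (f.Positive ↔ g.Positive) := by
    intro f g h
    unfold Positive
    rw [h]
  have hfin : a.vars.Finite := vars_finite a
  have hbits : ∀ w, ∀ n ∈ a.vars, n ∈ C.bits w → n ∈ D.bits w := by
    intro w n hn
    have := hCD (atNode w (.pos n)) ⟨by rw [vars_atNode]; simpa [vars] using hn,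
      (hlits (lits_atNode _ _)).2 (fun m hm => by simp [lits] at hm)⟩
    rw [evM_atNode, evM_atNode] at this
    change n ∈ (C.mdl.node w).bits [] → n ∈ (D.mdl.node w).bits [] at this
    rw [Mdl.node_bits, Mdl.node_bits, List.append_nil] at this
    exact this
  have hstar : ∀ n ∈ a.vars, n ∈ C.star → n ∈ D.star := by
    intro n hn
    have := hCD (starF (.pos n)) ⟨by rw [vars_starF]; simpa [vars] using hn,
      (hlits (lits_starF _)).2 (fun m hm => by simp [lits] at hm)⟩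
    rw [evM_starF, evM_starF] at this
    exact this
  have heps : C.eps = D.eps := by
    apply propext
    have h1 := hCD fR ⟨by
      rw [show fR.vars = ∅ by simp [fR, sMain, vars]]
      exact Set.empty_subset _, fun n hn => by rw [lits_fR] at hn; exact hn⟩
    have h2 := hCD fL ⟨by
      rw [show fL.vars = ∅ by simp [fL, sMain, vars]]
      exact Set.empty_subset _, fun n hn => by rw [lits_fL] at hn; exact hn⟩
    rw [evM_fR, evM_fR] at h1
    rw [evM_fL, evM_fL] at h2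
    exact ⟨h1, fun h => by_contra fun h' => h2 h' h⟩
  -- restriction to the variables of the formula
  have hr : ∀ (E : CM), evM a E.mdl ↔ evM a (cm (E.fam.map (fun s => s ∩ a.vars)) E.bits E.star
      E.eps) := by
    intro E
    refine evM_agr (V := a.vars) a a.depth _ _ le_rfl le_rfl ?_
    refine ⟨fun w n hn => Iff.rfl, fun n hn => Iff.rfl, Iff.rfl, fun w _ f hf => ?_⟩
    change {s : Set ℕ | evP s False f} ∈ E.fam.N w ↔
      {s : Set ℕ | evP (s ∩ a.vars) False f} ∈ E.fam.N w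
    have : {s : Set ℕ | evP s False f} = {s : Set ℕ | evP (s ∩ a.vars) False f} := by
      ext s
      exact evP_agr f (fun n hn => by simp [hf hn])
    rw [this]
  have hpos : PosLe (C.fam.map (fun s => s ∩ a.vars)) (D.fam.map (fun s => s ∩ a.vars)) := by
    constructor
    · intro u hu w hw
      obtain ⟨f, hf, hfp, hfx⟩ := definable hfin.toFinset ((fun s => s ∩ a.vars) ⁻¹' u) (by
        intro s t hst hs
        have : s ∩ a.vars = t ∩ a.vars := by
          ext n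
          constructor
          · rintro ⟨h1, h2⟩
            exact ⟨(hst n (hfin.mem_toFinset.2 h2)).1 h1, h2⟩
          · rintro ⟨h1, h2⟩
            exact ⟨(hst n (hfin.mem_toFinset.2 h2)).2 h1, h2⟩
        rw [Set.mem_preimage] at hs ⊢
        rwa [← this])
      rw [hfin.coe_toFinset] at hf
      have hfp' : f.Positive := hfp fun s t hst hs => hu _ _ (Set.inter_subset_inter_left _ hst) hs
      have h1 : {s | evP (id s) False f} = (fun s => s ∩ a.vars) ⁻¹' u := by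
        ext s
        exact hfx s False
      have := hCD (atNode w (gS f)) ⟨by rw [vars_atNode, vars_gS]; exact hf,
        (hlits ((lits_atNode _ _).trans (lits_gS _))).2 hfp'⟩
      rw [evM_atNode, evM_atNode, evM_atNode_gS, evM_atNode_gS] at this
      change {s | evP (id s) False f} ∈ C.fam.N w → {s | evP (id s) False f} ∈ D.fam.N w at this
      rw [h1] at this
      exact this hw
    · intro d hd w hw
      obtain ⟨f, hf, hfp, hfx⟩ := definable hfin.toFinset ((fun s => s ∩ a.vars) ⁻¹' dᶜ) (by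
        intro s t hst hs
        have : s ∩ a.vars = t ∩ a.vars := by
          ext n
          constructor
          · rintro ⟨h1, h2⟩
            exact ⟨(hst n (hfin.mem_toFinset.2 h2)).1 h1, h2⟩
          · rintro ⟨h1, h2⟩
            exact ⟨(hst n (hfin.mem_toFinset.2 h2)).2 h1, h2⟩
        rw [Set.mem_preimage] at hs ⊢
        rwa [← this])
      rw [hfin.coe_toFinset] at hf
      have hfp' : f.Positive := hfp fun s t hst hs h' =>
        hs (hd _ _ (Set.inter_subset_inter_left _ hst) h')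
      have h1 : {s | evP (id s) False f.not} = (fun s => s ∩ a.vars) ⁻¹' d := by
        ext s
        rw [Set.mem_ofPred_eq, evP_not]
        change ¬ evP s False f ↔ _
        rw [hfx s False]
        simp
      have := hCD (atNode w (gS f.not)).not ⟨by
          rw [vars_not, vars_atNode, vars_gS, vars_not]; exact hf, by
          intro n hn
          rw [mem_lits_not, lits_atNode, lits_gS, mem_lits_not] at hn
          exact hfp' n (by simpa using hn)⟩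
      rw [evM_not, evM_not, evM_atNode, evM_atNode, evM_atNode_gS, evM_atNode_gS] at this
      change {s | evP (id s) False f.not} ∉ C.fam.N w →
        {s | evP (id s) False f.not} ∉ D.fam.N w at this
      rw [h1] at this
      by_contra hc
      exact this hc hw
  apply hD
  rw [hr D, ← heps]
  exact hpos.transfer ha C.bits D.bits C.star D.star C.eps hbits hstar ((hr C).1 hC)

/-- The logic has the Lyndon positivity property. -/
theorem lpp_Lam : LPP Lam := by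
  intro a ha
  have hs := SMono.of_monotoneIn a ha
  obtain ⟨f1, hf1, hf1a⟩ := posit_pt False a hs
  obtain ⟨f2, hf2, hf2a⟩ := posit_pt True a hs
  obtain ⟨f3, hf3, hf3a⟩ := posit_md a hs
  refine ⟨comb f1 f2 f3, ?_, fun s => ?_, fun s => ?_, fun M => ?_⟩
  · intro n hn
    rw [lits_comb] at hn
    exact hn.elim (hf1 n) (fun h => h.elim (hf2 n) (hf3 n))
  · rw [evP_iff, evP_comb_false]; exact hf1a s
  · rw [evP_iff, evP_comb_true]; exact hf2a s
  · rw [evM_iff, evM_comb]; exact hf3a M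

end Pool.Agent.Work.MP_4e66c5_lc
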