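import Pool.Agent.Work.MP_4e66c5_lc.Basic

/-!
# The semantics
-/

namespace Pool.Agent.Work.MP_4e66c5_lc

open Fm

/-- The left-to-right order on the nodes of the full binary tree. -/
def nlt : List Bool → List Bool → Prop
  | [], [] => False
  | [], b :: _ => b = true
  | b :: _, [] => b = false
  | b :: v, c :: w => (b = false ∧ c = true) ∨ (b = c ∧ nlt v w)

theorem nlt_irrefl : ∀ v, ¬ nlt v v
  | [] => by simp [nlt]
  | b :: v => by
      have := nlt_irrefl v
      cases b <;> simp [nlt, this]

theorem nlt_trans : ∀ {u v w}, nlt u v → nlt v w → nlt u w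
  | [], [], _, h, _ => by simp [nlt] at h
  | [], b :: v, [], h, h' => by simp_all [nlt]
  | [], b :: v, c :: w, h, h' => by
      cases b <;> cases c <;> simp_all [nlt]
  | b :: u, [], [], h, h' => by simp_all [nlt]
  | b :: u, [], c :: w, h, h' => by
      cases b <;> cases c <;> simp_all [nlt]
  | b :: u, c :: v, [], h, h' => by
      cases b <;> cases c <;> simp_all [nlt]
  | b :: u, c :: v, d :: w, h, h' => by
      have ih := @nlt_trans u v w
      cases b <;> cases c <;> cases d <;> simp_all [nlt]

theorem nlt_tri : ∀ u v, nlt u v ∨ u = v ∨ nlt v u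
  | [], [] => by simp
  | [], b :: v => by cases b <;> simp [nlt]
  | b :: u, [] => by cases b <;> simp [nlt]
  | b :: u, c :: v => by
      have ih := nlt_tri u v
      cases b <;> cases c <;> simp [nlt, ih]

theorem nlt_left : ∀ v, nlt (v ++ [false]) v
  | [] => by simp [nlt]
  | b :: v => by
      have := nlt_left v
      simp [nlt, this]

theorem nlt_right : ∀ v, nlt v (v ++ [true])
  | [] => by simp [nlt]
  | b :: v => by
      have := nlt_right v
      simp [nlt, this]

theorem nlt_dense : ∀ {u v}, nlt u v → ∃ w, nlt u w ∧ nlt w v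
  | [], [], h => by simp [nlt] at h
  | [], b :: v, h => ⟨b :: (v ++ [false]), by simpa [nlt] using h, by
      have := nlt_left v
      simp [nlt, this]⟩
  | b :: u, [], h => ⟨b :: (u ++ [true]), by
      have := nlt_right u
      simp [nlt, this], by simpa [nlt] using h⟩
  | b :: u, c :: v, h => by
      have ih := @nlt_dense u v
      cases b <;> cases c
      · simp only [nlt, Bool.false_eq_true, and_false, true_and, false_or] at h
        obtain ⟨w, h1, h2⟩ := ih h
        exact ⟨false :: w, by simp [nlt, h1], by simp [nlt, h2]⟩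
      · exact ⟨[], by simp [nlt], by simp [nlt]⟩
      · simp [nlt] at h
      · simp only [nlt, Bool.true_eq_false, and_true, true_and, false_or] at h
        obtain ⟨w, h1, h2⟩ := ih h
        exact ⟨true :: w, by simp [nlt, h1], by simp [nlt, h2]⟩

/-- A family of up-sets of `Set S`, indexed by the nodes of the tree, in which comparable sets
that are neither small (in no member) nor large (in every member) are separated by at most one
node. -/
structure Fam (S : Type) where
  N : List Bool → Set (Set S)
  mono : ∀ w x y, x ⊆ y → x ∈ N w → y ∈ N w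
  gap : ∀ x y w₀ w₁ w w', x ⊆ y → nlt w w' → x ∈ N w₀ → y ∉ N w₁ → y ∈ N w' → x ∈ N w
  empty : ∀ w, ∅ ∉ N w
  univ : ∀ w, Set.univ ∈ N w

theorem Fam.anti {S : Type} (F : Fam S) {x : Set S} {w w'} (h : nlt w w') (hx : x ∈ F.N w') :
    x ∈ F.N w := by
  by_contra hc
  exact hc (F.gap x x w' w w w' le_rfl h hx hc hx)

/-- The family seen from a child of the root. -/
def Fam.child {S : Type} (F : Fam S) (b : Bool) : Fam S where
  N w := F.N (b :: w)
  mono w x y h hx := F.mono _ x y h hx
  gap x y w₀ w₁ w w' h hw h0 h1 h2 :=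
    F.gap x y (b :: w₀) (b :: w₁) (b :: w) (b :: w') h (by simp [nlt, hw]) h0 h1 h2
  empty w := F.empty _
  univ w := F.univ _

/-- The image of a family. -/
def Fam.map {S T : Type} (F : Fam S) (π : S → T) : Fam T where
  N w := {x | π ⁻¹' x ∈ F.N w}
  mono w x y h hx := F.mono _ _ _ (Set.preimage_mono h) hx
  gap x y w₀ w₁ w w' h hw h0 h1 h2 := F.gap _ _ _ _ _ _ (Set.preimage_mono h) hw h0 h1 h2
  empty w := by simpa using F.empty w
  univ w := by simpa using F.univ w

/-- Models. -/
structure Mdl where
  S : Type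
  fam : Fam S
  val : S → Set ℕ
  bits : List Bool → Set ℕ
  star : Set ℕ
  eps : Prop

/-- The submodel generated by a child of the root. -/
def Mdl.child (M : Mdl) (b : Bool) : Mdl where
  S := M.S
  fam := M.fam.child b
  val := M.val
  bits w := M.bits (b :: w)
  star := M.star
  eps := b = true

/-- Truth at a world all of whose diamond formulas have the truth value `c`. -/
def evP (s : Set ℕ) (c : Prop) : Fm → Prop
  | .pos n => n ∈ s
  | .neg n => n ∉ s
  | .bot => False
  | .top => True
  | .and a b => evP s c a ∧ evP s c b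
  | .or a b => evP s c a ∨ evP s c b
  | .dia _ => c
  | .box _ => ¬ c

/-- Truth at the root of a model. -/
def evM : Fm → Mdl → Prop
  | .pos n, M => n ∈ M.bits []
  | .neg n, M => n ∉ M.bits []
  | .bot, _ => False
  | .top, _ => True
  | .and a b, M => evM a M ∧ evM b M
  | .or a b, M => evM a M ∨ evM b M
  | .dia a, M => {s | evP (M.val s) False a} ∈ M.fam.N [] ∨ evM a (M.child false) ∨
      evM a (M.child true) ∨ (M.eps ∧ evP M.star True a)
  | .box a, M => {s | ¬ evP (M.val s) False a} ∉ M.fam.N [] ∧ evM a (M.child false) ∧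
      evM a (M.child true) ∧ (M.eps → evP M.star True a)

/-- The logic. -/
def Lam : Set Fm :=
  {a | (∀ s, evP s False a) ∧ (∀ s, evP s True a) ∧ ∀ M, evM a M}

theorem evP_not (s : Set ℕ) (c : Prop) (a : Fm) : evP s c a.not ↔ ¬ evP s c a := by
  induction a with
  | pos n => simp [Fm.not, evP]
  | neg n => simp [Fm.not, evP]
  | bot => simp [Fm.not, evP]
  | top => simp [Fm.not, evP]
  | and a b iha ihb => simp only [Fm.not, evP, iha, ihb]; tauto
  | or a b iha ihb => simp only [Fm.not, evP, iha, ihb]; tauto
  | dia a ih => simp [Fm.not, evP]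
  | box a ih => simp [Fm.not, evP]

theorem evM_not (a : Fm) : ∀ M, evM a.not M ↔ ¬ evM a M := by
  induction a with
  | pos n => intro M; simp [Fm.not, evM]
  | neg n => intro M; simp [Fm.not, evM]
  | bot => intro M; simp [Fm.not, evM]
  | top => intro M; simp [Fm.not, evM]
  | and a b iha ihb => intro M; simp only [Fm.not, evM, iha, ihb]; tauto
  | or a b iha ihb => intro M; simp only [Fm.not, evM, iha, ihb]; tauto
  | dia a ih => intro M; simp only [Fm.not, evM, ih, evP_not, Classical.not_not]; tauto
  | box a ih => intro M; simp only [Fm.not, evM, ih, evP_not, Classical.not_not]; tauto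

@[simp] theorem evP_imp (s : Set ℕ) (c : Prop) (a b : Fm) :
    evP s c (imp a b) ↔ (evP s c a → evP s c b) := by
  simp only [imp, evP, evP_not]; tauto

@[simp] theorem evM_imp (M : Mdl) (a b : Fm) :
    evM (imp a b) M ↔ (evM a M → evM b M) := by
  simp only [imp, evM, evM_not]; tauto

@[simp] theorem evP_iff (s : Set ℕ) (c : Prop) (a b : Fm) :
    evP s c (iff a b) ↔ (evP s c a ↔ evP s c b) := by
  simp only [Fm.iff, evP, evP_imp]; tauto

@[simp] theorem evM_iff (M : Mdl) (a b : Fm) :
    evM (iff a b) M ↔ (evM a M ↔ evM b M) := by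
  simp only [Fm.iff, evM, evM_imp]; tauto

/-- The submodel generated by a node. -/
def Mdl.node (M : Mdl) : List Bool → Mdl
  | [] => M
  | b :: w => (M.child b).node w

/-- The valuation of a model changed according to a substitution. -/
def Mdl.subst (M : Mdl) (σ : ℕ → Fm) : Mdl where
  S := M.S
  fam := M.fam
  val s := {n | evP (M.val s) False (σ n)}
  bits w := {n | evM (σ n) (M.node w)}
  star := {n | evP M.star True (σ n)}
  eps := M.eps

theorem evP_subst (s : Set ℕ) (c : Prop) (σ : ℕ → Fm) (a : Fm) :
    evP s c (a.subst σ) ↔ evP {n | evP s c (σ n)} c a := by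
  induction a with
  | pos n => simp [Fm.subst, evP]
  | neg n => simp [Fm.subst, evP, evP_not]
  | bot => simp [Fm.subst, evP]
  | top => simp [Fm.subst, evP]
  | and a b iha ihb => simp only [Fm.subst, evP, iha, ihb]
  | or a b iha ihb => simp only [Fm.subst, evP, iha, ihb]
  | dia a ih => simp [Fm.subst, evP]
  | box a ih => simp [Fm.subst, evP]

theorem Mdl.subst_child (M : Mdl) (σ : ℕ → Fm) (b : Bool) :
    (M.subst σ).child b = (M.child b).subst σ := rfl

theorem evM_subst (σ : ℕ → Fm) (a : Fm) : ∀ M, evM (a.subst σ) M ↔ evM a (M.subst σ) := by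
  induction a with
  | pos n => intro M; simp [Fm.subst, evM, Mdl.subst, Mdl.node]
  | neg n => intro M; simp [Fm.subst, evM, Mdl.subst, Mdl.node, evM_not]
  | bot => intro M; simp [Fm.subst, evM]
  | top => intro M; simp [Fm.subst, evM]
  | and a b iha ihb => intro M; simp only [Fm.subst, evM, iha, ihb]
  | or a b iha ihb => intro M; simp only [Fm.subst, evM, iha, ihb]
  | dia a ih =>
      intro M
      simp only [Fm.subst, evM, ih, evP_subst, Mdl.subst_child]
      rfl
  | box a ih =>
      intro M
      simp only [Fm.subst, evM, ih, evP_subst, Mdl.subst_child]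
      rfl

theorem isMonotoneLogic_Lam : IsMonotoneLogic Lam where
  taut a h := by
    refine ⟨fun s => ?_, fun s => ?_, fun M => ?_⟩
    · exact h (evP s False) (by simp [evP]) (by simp [evP]) (fun b c => by simp [evP])
        (fun b c => by simp [evP]) (fun b => evP_not _ _ _)
    · exact h (evP s True) (by simp [evP]) (by simp [evP]) (fun b c => by simp [evP])
        (fun b c => by simp [evP]) (fun b => evP_not _ _ _)
    · exact h (fun a => evM a M) (by simp [evM]) (by simp [evM]) (fun b c => by simp [evM])
        (fun b c => by simp [evM]) (fun b => evM_not _ _)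
  mono := by
    refine ⟨fun s => by simp [evP], fun s => by simp [evP], fun M => ?_⟩
    rw [evM_imp]
    simp only [evM, evP]
    rintro (h | h | h | h)
    · exact Or.inl (M.fam.mono _ _ _ (fun s hs => Or.inl hs) h)
    · exact Or.inr (Or.inl (Or.inl h))
    · exact Or.inr (Or.inr (Or.inl (Or.inl h)))
    · exact Or.inr (Or.inr (Or.inr ⟨h.1, Or.inl h.2⟩))
  mp a b ha hab :=
    ⟨fun s => (evP_imp _ _ _ _).1 (hab.1 s) (ha.1 s),
     fun s => (evP_imp _ _ _ _).1 (hab.2.1 s) (ha.2.1 s),
     fun M => (evM_imp _ _ _).1 (hab.2.2 M) (ha.2.2 M)⟩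
  subst σ a ha :=
    ⟨fun s => (evP_subst _ _ _ _).2 (ha.1 _), fun s => (evP_subst _ _ _ _).2 (ha.2.1 _),
     fun M => (evM_subst _ _ _).2 (ha.2.2 _)⟩
  congr a b h := by
    refine ⟨fun s => by simp [evP], fun s => by simp [evP], fun M => ?_⟩
    have h1 : ∀ s, evP s False a ↔ evP s False b := fun s => (evP_iff _ _ _ _).1 (h.1 s)
    have h2 : ∀ s, evP s True a ↔ evP s True b := fun s => (evP_iff _ _ _ _).1 (h.2.1 s)
    have h3 : ∀ M, evM a M ↔ evM b M := fun M => (evM_iff _ _ _).1 (h.2.2 M)
    rw [evM_iff]
    simp only [evM, h1, h2, h3]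

end Pool.Agent.Work.MP_4e66c5_lc
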