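import Pool.Agent.Work.MP_4e66c5_lc.Agree

/-!
# Compactness, separation and definability
-/

namespace Pool.Agent.Work.MP_4e66c5_lc

open Fm

/-- A notion of truth for the Boolean part, closed under limits along ultrafilters. -/
structure Good {X : Type} (sat : Fm → X → Prop) : Prop where
  and : ∀ a b x, sat (.and a b) x ↔ (sat a x ∧ sat b x)
  or : ∀ a b x, sat (.or a b) x ↔ (sat a x ∨ sat b x)
  top : ∀ x, sat .top x
  bot : ∀ x, ¬ sat .bot x
  lim : ∀ (I : Type) (U : Ultrafilter I) (x : I → X), ∃ y, ∀ a, sat a y ↔ ∀ᶠ i in U, sat a (x i)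

/-- Fragments. -/
structure Frag (Fr : Set Fm) : Prop where
  and : ∀ a b, a ∈ Fr → b ∈ Fr → .and a b ∈ Fr
  or : ∀ a b, a ∈ Fr → b ∈ Fr → .or a b ∈ Fr
  top : .top ∈ Fr
  bot : .bot ∈ Fr

theorem Good.compact {X : Type} {sat : Fm → X → Prop} (hs : Good sat) (A B : Set Fm)
    (h : ∀ Γ : Finset Fm, ∃ x, ∀ γ ∈ Γ, (γ ∈ A → sat γ x) ∧ (γ ∈ B → ¬ sat γ x)) :
    ∃ x, (∀ γ ∈ A, sat γ x) ∧ ∀ γ ∈ B, ¬ sat γ x := by
  classical
  choose x hx using h
  obtain ⟨y, hy⟩ := hs.lim (Finset Fm) (Ultrafilter.of Filter.atTop) x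
  have hU : ∀ γ : Fm, ∀ᶠ Γ in
      ((Ultrafilter.of (Filter.atTop : Filter (Finset Fm)) : Ultrafilter (Finset Fm)) :
        Filter (Finset Fm)), γ ∈ Γ := by
    intro γ
    have : ∀ᶠ Γ in (Filter.atTop : Filter (Finset Fm)), γ ∈ Γ := by
      filter_upwards [Filter.eventually_ge_atTop ({γ} : Finset Fm)] with Γ hΓ
      exact hΓ (Finset.mem_singleton_self γ)
    exact Ultrafilter.of_le _ this
  refine ⟨y, fun γ hγ => ?_, fun γ hγ => ?_⟩
  · rw [hy γ]
    filter_upwards [hU γ] with Γ hΓ
    exact (hx Γ γ hΓ).1 hγ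
  · rw [hy γ, ← Ultrafilter.eventually_not]
    filter_upwards [hU γ] with Γ hΓ
    exact (hx Γ γ hΓ).2 hγ

theorem Good.separate {X : Type} {sat : Fm → X → Prop} (hs : Good sat) {Fr : Set Fm}
    (hf : Frag Fr) (a b : Fm)
    (h : ¬ ∃ c ∈ Fr, (∀ x, sat a x → sat c x) ∧ ∀ x, sat c x → sat b x) :
    ∃ x y, sat a x ∧ ¬ sat b y ∧ ∀ c ∈ Fr, sat c x → sat c y := by
  classical
  have conj : ∀ (A : Set Fm), A ⊆ Fr → ∀ Γ : Finset Fm,
      ∃ c ∈ Fr, ∀ x, sat c x ↔ ∀ γ ∈ Γ, γ ∈ A → sat γ x := by
    intro A hA Γ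
    induction Γ using Finset.induction_on with
    | empty => exact ⟨.top, hf.top, fun x => by simp [hs.top]⟩
    | insert g G hg ih =>
        obtain ⟨c, hc, hcx⟩ := ih
        by_cases hgA : g ∈ A
        · refine ⟨.and g c, hf.and _ _ (hA hgA) hc, fun x => ?_⟩
          rw [hs.and, hcx x]
          simp [hgA]
        · refine ⟨c, hc, fun x => ?_⟩
          rw [hcx x]
          simp [hgA]
  have disj : ∀ (A : Set Fm), A ⊆ Fr → ∀ Γ : Finset Fm,
      ∃ c ∈ Fr, ∀ x, ¬ sat c x ↔ ∀ γ ∈ Γ, γ ∈ A → ¬ sat γ x := by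
    intro A hA Γ
    induction Γ using Finset.induction_on with
    | empty => exact ⟨.bot, hf.bot, fun x => by simp [hs.bot]⟩
    | insert g G hg ih =>
        obtain ⟨c, hc, hcx⟩ := ih
        by_cases hgA : g ∈ A
        · refine ⟨.or g c, hf.or _ _ (hA hgA) hc, fun x => ?_⟩
          rw [hs.or, not_or, hcx x]
          simp [hgA]
        · refine ⟨c, hc, fun x => ?_⟩
          rw [hcx x]
          simp [hgA]
  push Not at h
  obtain ⟨y, hyC, hyb⟩ := hs.compact {c | c ∈ Fr ∧ ∀ x, sat a x → sat c x} {b} (by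
    intro Γ
    obtain ⟨c, hc, hcx⟩ := conj {c | c ∈ Fr ∧ ∀ x, sat a x → sat c x} (fun c hc => hc.1) Γ
    obtain ⟨x, hx1, hx2⟩ := h c hc (fun x hx => (hcx x).2 fun γ _ hγ => hγ.2 x hx)
    refine ⟨x, fun γ hγ => ⟨fun hγA => (hcx x).1 hx1 γ hγ hγA, ?_⟩⟩
    rintro rfl
    exact hx2)
  obtain ⟨x, hxa, hxD⟩ := hs.compact {a} {c | c ∈ Fr ∧ ¬ sat c y} (by
    intro Γ
    obtain ⟨c, hc, hcx⟩ := disj {c | c ∈ Fr ∧ ¬ sat c y} (fun c hc => hc.1) Γ
    have hcy : ¬ sat c y := (hcx y).2 fun γ _ hγ => hγ.2
    have : ¬ ∀ x, sat a x → sat c x := fun h => hcy (hyC c ⟨hc, h⟩)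
    push Not at this
    obtain ⟨x, hx1, hx2⟩ := this
    refine ⟨x, fun γ hγ => ⟨?_, fun hγD => (hcx x).1 hx2 γ hγ hγD⟩⟩
    rintro rfl
    exact hx1)
  refine ⟨x, y, hxa a rfl, hyb b rfl, fun c hc hcx => ?_⟩
  by_contra hcy
  exact hxD c ⟨hc, hcy⟩ hcx

/-- Truth at points is closed under limits. -/
theorem evP_lim {I : Type} (U : Ultrafilter I) (s : I → Set ℕ) (c : I → Prop) (a : Fm) :
    evP {n | ∀ᶠ i in U, n ∈ s i} (∀ᶠ i in U, c i) a ↔ ∀ᶠ i in U, evP (s i) (c i) a := by
  induction a with
  | pos n => exact Iff.rfl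
  | neg n => exact Ultrafilter.eventually_not.symm
  | bot => simp [evP, U.neBot.ne]
  | top => simp [evP]
  | and a b iha ihb => simp only [evP, iha, ihb]; exact Filter.eventually_and.symm
  | or a b iha ihb => simp only [evP, iha, ihb]; exact Ultrafilter.eventually_or.symm
  | dia a ih => exact Iff.rfl
  | box a ih => exact Ultrafilter.eventually_not.symm

theorem good_evP (c : Prop) : Good (fun a (s : Set ℕ) => evP s c a) where
  and a b x := Iff.rfl
  or a b x := Iff.rfl
  top x := trivial
  bot x := id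
  lim I U x := by
    refine ⟨{n | ∀ᶠ i in U, n ∈ x i}, fun a => ?_⟩
    rw [← evP_lim U x (fun _ => c) a]
    have : (∀ᶠ i in (U : Filter I), c) = c := by simp
    simp only [this]

/-- Canonical models: the underlying set is the set of all valuations. -/
structure CM where
  fam : Fam (Set ℕ)
  bits : List Bool → Set ℕ
  star : Set ℕ
  eps : Prop

/-- A canonical model as a model. -/
def CM.mdl (C : CM) : Mdl := ⟨Set ℕ, C.fam, id, C.bits, C.star, C.eps⟩

/-- The child of a canonical model. -/
def CM.child (C : CM) (b : Bool) : CM := ⟨C.fam.child b, fun w => C.bits (b :: w), C.star, b = true⟩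

theorem CM.child_mdl (C : CM) (b : Bool) : (C.child b).mdl = C.mdl.child b := rfl

/-- Limit of families. -/
def Fam.lim {S I : Type} (U : Ultrafilter I) (F : I → Fam S) : Fam S where
  N w := {x | ∀ᶠ i in U, x ∈ (F i).N w}
  mono w x y h hx := by
    filter_upwards [hx] with i hi
    exact (F i).mono w x y h hi
  gap x y w₀ w₁ w w' h hw hx hy hy' := by
    rw [Set.mem_ofPred_eq, ← Ultrafilter.eventually_not] at hy
    filter_upwards [hx, hy, hy'] with i h1 h2 h3
    exact (F i).gap x y w₀ w₁ w w' h hw h1 h2 h3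
  empty w := by
    rw [Set.mem_ofPred_eq, ← Ultrafilter.eventually_not]
    exact Filter.Eventually.of_forall fun i => (F i).empty w
  univ w := Filter.Eventually.of_forall fun i => (F i).univ w

/-- Limit of canonical models. -/
def CM.lim {I : Type} (U : Ultrafilter I) (C : I → CM) : CM where
  fam := Fam.lim U fun i => (C i).fam
  bits w := {n | ∀ᶠ i in U, n ∈ (C i).bits w}
  star := {n | ∀ᶠ i in U, n ∈ (C i).star}
  eps := ∀ᶠ i in U, (C i).eps

theorem evM_lim {I : Type} (U : Ultrafilter I) (a : Fm) : ∀ (C : I → CM),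
    evM a (CM.lim U C).mdl ↔ ∀ᶠ i in U, evM a (C i).mdl := by
  induction a with
  | pos n => intro C; exact Iff.rfl
  | neg n => intro C; exact Ultrafilter.eventually_not.symm
  | bot => intro C; simp [evM, U.neBot.ne]
  | top => intro C; simp [evM]
  | and a b iha ihb => intro C; simp only [evM, iha, ihb]; exact Filter.eventually_and.symm
  | or a b iha ihb => intro C; simp only [evM, iha, ihb]; exact Ultrafilter.eventually_or.symm
  | dia a ih =>
      intro C
      have hch : ∀ b, evM a ((CM.lim U C).mdl.child b) ↔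
          ∀ᶠ i in U, evM a ((C i).mdl.child b) := by
        intro b
        have h1 : (CM.lim U C).child b = CM.lim U (fun i => (C i).child b) := by
          simp only [CM.lim, CM.child]
          congr 1
          simp
        rw [← CM.child_mdl, h1, ih]
        rfl
      have hst : evP (CM.lim U C).star True a ↔ ∀ᶠ i in U, evP (C i).star True a := by
        rw [← evP_lim U (fun i => (C i).star) (fun _ => True) a]
        have : (∀ᶠ i in (U : Filter I), True) = True := by simp
        simp only [this]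
        rfl
      simp only [evM, Ultrafilter.eventually_or, Filter.eventually_and]
      refine or_congr Iff.rfl (or_congr (hch false) (or_congr (hch true) (and_congr Iff.rfl hst)))
  | box a ih =>
      intro C
      have hch : ∀ b, evM a ((CM.lim U C).mdl.child b) ↔
          ∀ᶠ i in U, evM a ((C i).mdl.child b) := by
        intro b
        have h1 : (CM.lim U C).child b = CM.lim U (fun i => (C i).child b) := by
          simp only [CM.lim, CM.child]
          congr 1
          simp
        rw [← CM.child_mdl, h1, ih]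
        rfl
      have hst : evP (CM.lim U C).star True a ↔ ∀ᶠ i in U, evP (C i).star True a := by
        rw [← evP_lim U (fun i => (C i).star) (fun _ => True) a]
        have : (∀ᶠ i in (U : Filter I), True) = True := by simp
        simp only [this]
        rfl
      simp only [evM, Filter.eventually_and]
      refine and_congr Ultrafilter.eventually_not.symm (and_congr (hch false)
        (and_congr (hch true) ((imp_congr Iff.rfl hst).trans Ultrafilter.eventually_imp.symm)))

theorem good_evM : Good (fun a (C : CM) => evM a C.mdl) where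
  and a b x := Iff.rfl
  or a b x := Iff.rfl
  top x := trivial
  bot x := id
  lim I U x := ⟨CM.lim U x, fun a => evM_lim U a x⟩

/-- The canonical model of a model. -/
def Mdl.can (M : Mdl) : CM := ⟨M.fam.map M.val, M.bits, M.star, M.eps⟩

theorem evM_can (a : Fm) (M : Mdl) : evM a M.can.mdl ↔ evM a M := by
  refine (evM_agr (V := Set.univ) a a.depth _ _ (Set.subset_univ _) le_rfl ?_)
  exact ⟨fun w n hn => Iff.rfl, fun n hn => Iff.rfl, Iff.rfl, fun w _ b hb => Iff.rfl⟩

/-- Sets of valuations that depend only on finitely many variables are definable, and by a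
positive formula if they are upper sets. -/
theorem definable (V : Finset ℕ) : ∀ x : Set (Set ℕ),
    (∀ s t : Set ℕ, (∀ n ∈ V, n ∈ s ↔ n ∈ t) → s ∈ x → t ∈ x) →
    ∃ a : Fm, a.vars ⊆ V ∧ ((∀ s t : Set ℕ, s ⊆ t → s ∈ x → t ∈ x) → a.Positive) ∧
      ∀ s c, evP s c a ↔ s ∈ x := by
  classical
  induction V using Finset.induction_on with
  | empty =>
      intro x hx
      by_cases h : ∅ ∈ x
      · refine ⟨.top, by simp [vars], fun _ n => by simp [lits], fun s c => ?_⟩
        exact ⟨fun _ => hx ∅ s (by simp) h, fun _ => trivial⟩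
      · refine ⟨.bot, by simp [vars], fun _ n => by simp [lits], fun s c => ?_⟩
        exact ⟨fun h => h.elim, fun hs => h (hx s ∅ (by simp) hs)⟩
  | insert k V hk ih =>
      intro x hx
      obtain ⟨a1, ha1, hp1, he1⟩ := ih {s | insert k s ∈ x} (by
        intro s t hst hs
        refine hx _ _ ?_ hs
        intro n hn
        rcases Finset.mem_insert.1 hn with rfl | hn
        · simp
        · simp [hst n hn])
      obtain ⟨a0, ha0, hp0, he0⟩ := ih {s | s \ {k} ∈ x} (by
        intro s t hst hs
        refine hx _ _ ?_ hs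
        intro n hn
        rcases Finset.mem_insert.1 hn with rfl | hn
        · simp
        · simp [hst n hn])
      have hcase : ∀ s : Set ℕ, (k ∈ s → (insert k s ∈ x ↔ s ∈ x)) ∧
          (k ∉ s → (s \ {k} ∈ x ↔ s ∈ x)) := by
        intro s
        constructor
        · intro hks
          rw [Set.insert_eq_of_mem hks]
        · intro hks
          rw [Set.sdiff_singleton_eq_self hks]
      by_cases hup : ∀ s t : Set ℕ, s ⊆ t → s ∈ x → t ∈ x
      · refine ⟨.or (.and (.pos k) a1) a0, ?_, fun _ => ?_, fun s c => ?_⟩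
        · intro n hn
          rcases hn with (hn | hn) | hn
          · rw [Set.mem_singleton_iff.1 hn]; simp
          · exact Finset.mem_coe.2 (Finset.mem_insert_of_mem (ha1 hn))
          · exact Finset.mem_coe.2 (Finset.mem_insert_of_mem (ha0 hn))
        · intro n hn
          rcases hn with (hn | hn) | hn
          · simp [lits] at hn
          · exact hp1 (fun s t hst hs => hup _ _ (Set.insert_subset_insert hst) hs) n hn
          · exact hp0 (fun s t hst hs => hup _ _ (Set.sdiff_subset_sdiff_left hst) hs) n hn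
        · change (k ∈ s ∧ evP s c a1) ∨ evP s c a0 ↔ s ∈ x
          rw [he1 s c, he0 s c]
          constructor
          · rintro (⟨h, h'⟩ | h)
            · exact ((hcase s).1 h).1 h'
            · exact hup _ _ Set.sdiff_subset h
          · intro h
            by_cases hks : k ∈ s
            · exact Or.inl ⟨hks, ((hcase s).1 hks).2 h⟩
            · exact Or.inr (((hcase s).2 hks).2 h)
      · refine ⟨.or (.and (.pos k) a1) (.and (.neg k) a0), ?_, fun h => absurd h hup,
          fun s c => ?_⟩
        · intro n hn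
          rcases hn with (hn | hn) | (hn | hn)
          · rw [Set.mem_singleton_iff.1 hn]; simp
          · exact Finset.mem_coe.2 (Finset.mem_insert_of_mem (ha1 hn))
          · rw [Set.mem_singleton_iff.1 hn]; simp
          · exact Finset.mem_coe.2 (Finset.mem_insert_of_mem (ha0 hn))
        · change (k ∈ s ∧ evP s c a1) ∨ (k ∉ s ∧ evP s c a0) ↔ s ∈ x
          rw [he1 s c, he0 s c]
          constructor
          · rintro (⟨h, h'⟩ | ⟨h, h'⟩)
            · exact ((hcase s).1 h).1 h'
            · exact ((hcase s).2 h).1 h'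
          · intro h
            by_cases hks : k ∈ s
            · exact Or.inl ⟨hks, ((hcase s).1 hks).2 h⟩
            · exact Or.inr ⟨hks, ((hcase s).2 hks).2 h⟩

end Pool.Agent.Work.MP_4e66c5_lc
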