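import Pool.Agent.Work.MP_4e66c5_lc.Ext

/-!
# Closed formulas for the sorts and the nodes
-/

namespace Pool.Agent.Work.MP_4e66c5_lc

open Fm

/-- Holds exactly at the dead worlds. -/
def sS : Fm := .box .bot

/-- Holds exactly at the worlds at which every diamond formula holds. -/
def sStar : Fm := .dia .bot

/-- Holds exactly at the other worlds. -/
def sMain : Fm := .and (.dia .top) (.box .top)

/-- Marks the right children. -/
def fR : Fm := .and sMain (.dia (.dia .bot))

/-- Marks the left children. -/
def fL : Fm := .and sMain (.box (.box .top))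

theorem evM_dia_bot (M : Mdl) : ¬ evM (.dia .bot) M := by
  rintro (h | h | h | ⟨-, h⟩)
  · apply M.fam.empty []
    convert h using 1
    ext s; simp [evP]
  · exact h
  · exact h
  · exact h

theorem evM_dia_top (M : Mdl) : evM (.dia .top) M := by
  left
  convert M.fam.univ [] using 1
  ext s; simp [evP]

theorem evM_box_top (M : Mdl) : evM (.box .top) M := by
  have := evM_not (.dia .bot) M
  simp only [Fm.not] at this
  exact this.2 (evM_dia_bot M)

theorem evM_box_bot (M : Mdl) : ¬ evM (.box .bot) M := by
  have := evM_not (.dia .top) M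
  simp only [Fm.not] at this
  exact fun h => this.1 h (evM_dia_top M)

theorem evP_sS (s : Set ℕ) (c : Prop) : evP s c sS ↔ ¬ c := Iff.rfl
theorem evP_sStar (s : Set ℕ) (c : Prop) : evP s c sStar ↔ c := Iff.rfl
theorem evP_sMain (s : Set ℕ) (c : Prop) : ¬ evP s c sMain := fun h => h.2 h.1
theorem evM_sS (M : Mdl) : ¬ evM sS M := evM_box_bot M
theorem evM_sStar (M : Mdl) : ¬ evM sStar M := evM_dia_bot M
theorem evM_sMain (M : Mdl) : evM sMain M := ⟨evM_dia_top M, evM_box_top M⟩

theorem evM_dia_dia_bot (M : Mdl) : evM (.dia (.dia .bot)) M ↔ M.eps := by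
  constructor
  · rintro (h | h | h | ⟨h, -⟩)
    · exfalso
      apply M.fam.empty []
      convert h using 1
      ext s
      exact ⟨fun h => h.elim, fun h => h⟩
    · exact absurd h (evM_dia_bot _)
    · exact absurd h (evM_dia_bot _)
    · exact h
  · intro h
    exact Or.inr (Or.inr (Or.inr ⟨h, trivial⟩))

theorem evM_fR (M : Mdl) : evM fR M ↔ M.eps := by
  constructor
  · rintro ⟨-, h⟩
    exact (evM_dia_dia_bot M).1 h
  · intro h
    exact ⟨evM_sMain M, (evM_dia_dia_bot M).2 h⟩

theorem evM_fL (M : Mdl) : evM fL M ↔ ¬ M.eps := by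
  have h2 := evM_not (.dia (.dia .bot)) M
  simp only [Fm.not] at h2
  rw [evM_dia_dia_bot] at h2
  constructor
  · rintro ⟨-, h⟩
    exact h2.1 h
  · intro h
    exact ⟨evM_sMain M, h2.2 h⟩

theorem evP_fR (s : Set ℕ) (c : Prop) : ¬ evP s c fR := fun h => evP_sMain s c h.1
theorem evP_fL (s : Set ℕ) (c : Prop) : ¬ evP s c fL := fun h => evP_sMain s c h.1

/-- The formula saying that `f` holds at the node `w`. -/
def atNode : List Bool → Fm → Fm
  | [], f => f
  | false :: w, f => .dia (.and fL (atNode w f))
  | true :: w, f => .dia (.and fR (atNode w f))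

theorem evM_atNode (f : Fm) : ∀ (w : List Bool) (M : Mdl), evM (atNode w f) M ↔ evM f (M.node w)
  | [], M => Iff.rfl
  | false :: w, M => by
      rw [Mdl.node, ← evM_atNode f w (M.child false)]
      constructor
      · rintro (h | h | h | ⟨-, h⟩)
        · exfalso
          apply M.fam.empty []
          convert h using 1
          ext s
          simp only [Set.mem_empty_iff_false, Set.mem_ofPred_eq, false_iff]
          exact fun h => evP_fL _ _ h.1
        · exact h.2
        · exact absurd rfl ((evM_fL _).1 h.1)
        · exact absurd h.1 (evP_fL _ _)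
      · intro h
        refine Or.inr (Or.inl ⟨(evM_fL _).2 ?_, h⟩)
        simp [Mdl.child]
  | true :: w, M => by
      rw [Mdl.node, ← evM_atNode f w (M.child true)]
      constructor
      · rintro (h | h | h | ⟨-, h⟩)
        · exfalso
          apply M.fam.empty []
          convert h using 1
          ext s
          simp only [Set.mem_empty_iff_false, Set.mem_ofPred_eq, false_iff]
          exact fun h => evP_fR _ _ h.1
        · have := (evM_fR _).1 h.1
          simp [Mdl.child] at this
        · exact h.2
        · exact absurd h.1 (evP_fR _ _)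
      · intro h
        refine Or.inr (Or.inr (Or.inl ⟨(evM_fR _).2 ?_, h⟩))
        simp [Mdl.child]

/-- The formula saying that the set defined by `f` is a neighbourhood. -/
def gS (f : Fm) : Fm := .dia (.and sS f)

theorem evM_gS (f : Fm) (M : Mdl) :
    evM (gS f) M ↔ {s | evP (M.val s) False f} ∈ M.fam.N [] := by
  have : {s | evP (M.val s) False (.and sS f)} = {s | evP (M.val s) False f} := by
    ext s
    simp only [Set.mem_ofPred_eq, evP, sS]
    tauto
  constructor
  · rintro (h | h | h | ⟨-, h⟩)
    · rwa [this] at h
    · exact absurd h.1 (evM_sS _)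
    · exact absurd h.1 (evM_sS _)
    · exact absurd trivial h.1
  · intro h
    left
    rwa [this]

/-- The formula saying that `f` holds at the star. -/
def starF (f : Fm) : Fm := atNode [true] (.dia (.and sStar f))

theorem evM_starF (f : Fm) (M : Mdl) : evM (starF f) M ↔ evP M.star True f := by
  rw [starF, evM_atNode]
  simp only [Mdl.node]
  constructor
  · rintro (h | h | h | ⟨-, h⟩)
    · exfalso
      apply M.fam.empty [true]
      have h' : {s | evP (M.val s) False (.and sStar f)} ∈ M.fam.N [true] := h
      convert h' using 1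
      ext s
      exact ⟨fun h => h.elim, fun h => h.1⟩
    · exact absurd h.1 (evM_sStar _)
    · exact absurd h.1 (evM_sStar _)
    · exact h.2
  · intro h
    exact Or.inr (Or.inr (Or.inr ⟨rfl, trivial, h⟩))

theorem Mdl.node_bits : ∀ (w v : List Bool) (M : Mdl), (M.node w).bits v = M.bits (w ++ v)
  | [], v, M => rfl
  | b :: w, v, M => by
      rw [Mdl.node, Mdl.node_bits w v (M.child b)]
      rfl

theorem Mdl.node_star : ∀ (w : List Bool) (M : Mdl), (M.node w).star = M.star
  | [], M => rfl
  | b :: w, M => by
      rw [Mdl.node, Mdl.node_star w (M.child b)]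
      rfl

/-- `gS` at a node. -/
theorem evM_atNode_gS (f : Fm) : ∀ (w : List Bool) (M : Mdl),
    evM (gS f) (M.node w) ↔ {s | evP (M.val s) False f} ∈ M.fam.N w := by
  have key : ∀ (w v : List Bool) (M : Mdl),
      ({s | evP ((M.node w).val s) False f} ∈ (M.node w).fam.N v ↔
        {s | evP (M.val s) False f} ∈ M.fam.N (w ++ v)) := by
    intro w
    induction w with
    | nil => intro v M; exact Iff.rfl
    | cons b w ih =>
        intro v M
        exact ih v (M.child b)
  intro w M
  rw [evM_gS, key, List.append_nil]

theorem lits_sS : sS.lits = ∅ := rfl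
theorem lits_sStar : sStar.lits = ∅ := rfl
theorem lits_sMain : sMain.lits = ∅ := by simp [sMain, lits]
theorem lits_fR : fR.lits = ∅ := by simp [fR, sMain, lits]
theorem lits_fL : fL.lits = ∅ := by simp [fL, sMain, lits]

theorem lits_atNode (f : Fm) : ∀ w, (atNode w f).lits = f.lits
  | [] => rfl
  | false :: w => by
      simp only [atNode, lits, lits_fL, Set.empty_union]
      exact lits_atNode f w
  | true :: w => by
      simp only [atNode, lits, lits_fR, Set.empty_union]
      exact lits_atNode f w

theorem lits_gS (f : Fm) : (gS f).lits = f.lits := by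
  simp [gS, lits, lits_sS]

theorem lits_starF (f : Fm) : (starF f).lits = f.lits := by
  rw [starF, lits_atNode]
  simp [lits, lits_sStar]

theorem vars_eq_of_lits {a b : Fm} (h : a.lits = b.lits) : a.vars = b.vars := by
  ext n
  rw [mem_vars_iff, mem_vars_iff, h]

theorem vars_atNode (f : Fm) (w : List Bool) : (atNode w f).vars = f.vars :=
  vars_eq_of_lits (lits_atNode f w)

theorem vars_gS (f : Fm) : (gS f).vars = f.vars := vars_eq_of_lits (lits_gS f)

theorem vars_starF (f : Fm) : (starF f).vars = f.vars := vars_eq_of_lits (lits_starF f)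

theorem vars_sS : sS.vars = ∅ := rfl
theorem vars_sStar : sStar.vars = ∅ := rfl
theorem vars_sMain : sMain.vars = ∅ := by simp [sMain, vars]

/-- Three formulas glued along the sorts. -/
def comb (a b c : Fm) : Fm := .or (.and sS a) (.or (.and sStar b) (.and sMain c))

theorem evP_comb_false (s : Set ℕ) (a b c : Fm) :
    evP s False (comb a b c) ↔ evP s False a := by
  have := evP_sMain s False
  simp only [comb, evP, evP_sS, evP_sStar, this]
  tauto

theorem evP_comb_true (s : Set ℕ) (a b c : Fm) :
    evP s True (comb a b c) ↔ evP s True b := by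
  have := evP_sMain s True
  simp only [comb, evP, evP_sS, evP_sStar, this]
  tauto

theorem evM_comb (M : Mdl) (a b c : Fm) : evM (comb a b c) M ↔ evM c M := by
  simp only [comb, evM, evM_sS, evM_sStar, evM_sMain]
  tauto

theorem lits_comb (a b c : Fm) : (comb a b c).lits = a.lits ∪ (b.lits ∪ c.lits) := by
  simp [comb, lits, lits_sS, lits_sStar, lits_sMain]

theorem vars_comb (a b c : Fm) : (comb a b c).vars = a.vars ∪ (b.vars ∪ c.vars) := by
  simp [comb, vars, vars_sS, vars_sStar, vars_sMain]

end Pool.Agent.Work.MP_4e66c5_lc
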